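import Mathlib
import Pool.Agent.H76.GN.Lev

/-!
# The assembly over the rows

`rho Q` is the cost of the first `Q` digits of the last coordinate, all digits of the other
coordinates given. A row is steep if these digits cost their full price. If almost every point
`(Q, q)` with `be > 0` is steep (micro blocks), and almost every static row is steep, then the rows
above `G` cost at least `1 - G`.
-/

set_option autoImplicit false

namespace Pool.ASM

open MeasureTheory Set Filter Topology Pool.LEV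

/-- The row `Q` costs the full price at a sequence of scales. -/
def Steep (rho : ℝ → ℝ) (Q : ℝ) : Prop :=
  ∀ h : ℝ, 0 < h → ∀ X₀ : ℝ, 0 < X₀ → ∃ X : ℝ, 0 < X ∧ X ≤ X₀ ∧
    rho Q + (1 - h) * X ≤ rho (Q + X)

theorem Steep.deriv {rho : ℝ → ℝ} {Q : ℝ} (h : Steep rho Q) (hd : DifferentiableAt ℝ rho Q) :
    1 ≤ deriv rho Q := by
  by_contra hc
  push Not at hc
  obtain ⟨e, he⟩ : ∃ e, e = (1 - _root_.deriv rho Q) / 4 := ⟨_, rfl⟩
  have he0 : 0 < e := by rw [he]; linarith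
  have h1 := hd.hasDerivAt.isLittleO.def he0
  obtain ⟨d, hd0, h2⟩ := Metric.eventually_nhds_iff.1 h1
  obtain ⟨X, hX0, hX1, hX2⟩ := h e he0 (d / 2) (by positivity)
  have h3 := h2 (y := Q + X) (by
    rw [Real.dist_eq, add_sub_cancel_left, abs_of_pos hX0]
    linarith)
  rw [add_sub_cancel_left, Real.norm_eq_abs, Real.norm_eq_abs, abs_of_pos hX0, smul_eq_mul] at h3
  have h4 := (abs_le.1 h3).2
  have h5 : rho (Q + X) - rho Q ≤ X * _root_.deriv rho Q + e * X := by linarith only [h4]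
  have h6 : (1 - e) * X ≤ X * _root_.deriv rho Q + e * X := by linarith only [h5, hX2]
  have h7 : (1 - _root_.deriv rho Q) * X ≤ 2 * e * X := by linarith only [h6]
  have h8 : (1 - _root_.deriv rho Q) ≤ 2 * e := le_of_mul_le_mul_right h7 hX0
  rw [he] at h8
  linarith only [h8, hc]

/-- The slope at all small scales. -/
theorem Steep.of_forall {rho : ℝ → ℝ} {Q : ℝ} (h : ∀ h : ℝ, 0 < h → ∃ X₁ : ℝ, 0 < X₁ ∧
    ∀ X : ℝ, 0 < X → X ≤ X₁ → rho Q + (1 - h) * X ≤ rho (Q + X)) : Steep rho Q := by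
  intro e he X₀ hX₀
  obtain ⟨X₁, h1, h2⟩ := h e he
  exact ⟨min X₀ X₁, lt_min hX₀ h1, min_le_left _ _, h2 _ (lt_min hX₀ h1) (min_le_right _ _)⟩

/-- The rows of an interval: if almost all of them are steep, they cost the full price. -/
theorem cost {rho : ℝ → ℝ} {G : ℝ} (hr : MonotoneOn rho (Icc G 1)) (hG : G ≤ 1)
    (h : ∀ᵐ Q : ℝ, G < Q → Q < 1 → DifferentiableAt ℝ rho Q → Steep rho Q) :
    1 - G ≤ rho 1 - rho G := by
  have hr' : MonotoneOn rho (uIcc G 1) := by rwa [uIcc_of_le hG]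
  have h1 := hr'.intervalIntegral_deriv_mem_uIcc
  have h2 : rho G ≤ rho 1 := hr (left_mem_Icc.2 hG) (right_mem_Icc.2 hG) hG
  rw [uIcc_of_le (by linarith)] at h1
  have h3 : ∀ᵐ Q : ℝ, Q ∈ Icc G 1 → (1 : ℝ) ≤ deriv rho Q := by
    have h4 : ∀ᵐ Q : ℝ, Q ∈ Icc G 1 → DifferentiableWithinAt ℝ rho (Icc G 1) Q :=
      hr.ae_differentiableWithinAt_of_mem
    have h5 : ∀ᵐ Q : ℝ, Q ≠ G ∧ Q ≠ 1 := by
      have h6 : ∀ᵐ Q : ℝ, Q ≠ G := by simp [ae_iff, measure_singleton]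
      have h7 : ∀ᵐ Q : ℝ, Q ≠ 1 := by simp [ae_iff, measure_singleton]
      filter_upwards [h6, h7] with Q a b using ⟨a, b⟩
    filter_upwards [h, h4, h5] with Q hQ hQ4 hQ5 hQI
    have h6 : G < Q := lt_of_le_of_ne hQI.1 (Ne.symm hQ5.1)
    have h7 : Q < 1 := lt_of_le_of_ne hQI.2 hQ5.2
    have h8 : DifferentiableAt ℝ rho Q := (hQ4 hQI).differentiableAt (Icc_mem_nhds h6 h7)
    exact (hQ h6 h7 h8).deriv h8
  have h4 : ∫ _ in G..1, (1 : ℝ) ≤ ∫ Q in G..1, deriv rho Q := by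
    rw [intervalIntegral.integral_of_le hG, intervalIntegral.integral_of_le hG,
      ← integral_Icc_eq_integral_Ioc, ← integral_Icc_eq_integral_Ioc]
    refine setIntegral_mono_ae_restrict ?_ ?_ ?_
    · exact (integrableOn_const (by simp) (by simp))
    · have h5 := hr'.intervalIntegrable_deriv
      exact (intervalIntegrable_iff_integrableOn_Icc_of_le hG).1 h5
    · rw [Filter.EventuallyLE, ae_restrict_iff' measurableSet_Icc]
      exact h3
  rw [intervalIntegral.integral_const, smul_eq_mul, mul_one] at h4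
  linarith only [h1.2, h4]

/-- **The assembly.** Micro points with `be > 0` and static rows are steep; hence the rows above
`G` cost at least `1 - G`. -/
theorem rows {P : ℝ → ℝ → ℝ} (hP : Law P) {rho : ℝ → ℝ} {G w₁ : ℝ}
    (hr : MonotoneOn rho (Icc G 1)) (hG0 : 0 ≤ G) (hG1 : G ≤ 1)
    (M : ∀ᵐ p : ℝ × ℝ, G < p.1 → p.1 < 1 → 0 < p.2 → p.2 < 1 → w₁ < Lv P p - p.2 →
      DifferentiableAt ℝ (Lv P) p → 0 < fderiv ℝ (Lv P) p (0, 1) → Steep rho p.1)
    (S : ∀ᵐ Q : ℝ, G < Q → Q < 1 →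
      (∀ q, 0 ≤ q → q ≤ 1 → w₁ < lev P Q q - q → lev P Q q = lev P Q 0) → Steep rho Q) :
    1 - G ≤ rho 1 - rho G := by
  refine cost hr hG1 ?_
  have h1 := vert (w₁ := w₁) hP (U := {Q | G < Q ∧ Q < 1 ∧ ¬ Steep rho Q}) (fun Q hQ =>
    ⟨hG0.trans hQ.1.le, hQ.2.1.le⟩) (by
      filter_upwards [M] with p hp h2 h3 h4 h5 h6 h7
      exact h2.2.2 (hp h2.1 h2.2.1 h3 h4 h5 h6 h7))
  filter_upwards [h1, S] with Q h2 h3 h4 h5 _
  by_contra hc
  exact hc (h3 h4 h5 (h2 ⟨h4, h5, hc⟩))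

/-- **The assembly**, in the form of a contradiction: the rows above `G` do not cost the full
price. -/
theorem asm {P : ℝ → ℝ → ℝ} (hP : Law P) {rho : ℝ → ℝ} {G w₁ c : ℝ}
    (hr : MonotoneOn rho (Icc G 1)) (hG0 : 0 ≤ G) (hG1 : G < 1) (hc : 0 < c)
    (F1 : rho 1 - rho G ≤ (1 - c) * (1 - G))
    (M : ∀ᵐ p : ℝ × ℝ, G < p.1 → p.1 < 1 → 0 < p.2 → p.2 < 1 → w₁ < Lv P p - p.2 →
      DifferentiableAt ℝ (Lv P) p → 0 < fderiv ℝ (Lv P) p (0, 1) → Steep rho p.1)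
    (S : ∀ᵐ Q : ℝ, G < Q → Q < 1 →
      (∀ q, 0 ≤ q → q ≤ 1 → w₁ < lev P Q q - q → lev P Q q = lev P Q 0) → Steep rho Q) :
    False := by
  have h1 := rows hP hr hG0 hG1.le M S
  have h2 : 0 < c * (1 - G) := mul_pos hc (by linarith)
  linarith only [h1, h2, F1]

end Pool.ASM
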