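import Pool.Agent.H99.GEN.Lim
import Pool.Agent.H67.GEN.WfU

/-!
# Limits of the numbers of a sequence of classes

`IsLim A P r`: the thresholds `P j` and the rates `r k` are approximated by numbers `P'`, `r'` with
`A e P' r'`, for arbitrarily small `e`, uniformly for finitely many indices.
`exists_lim`: limits exist. `IsLim.ge`, `IsLim.le`: closed inequalities for rates.
`IsLim.diag`: upper bounds of the diagonal threshold.
-/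

set_option autoImplicit false

namespace Pool.STR

open MeasureTheory Set Filter Topology Pool.LEV
open scoped NNReal

variable {ι κ : Type*}

/-- The laws of the numbers of one class: thresholds and rates. -/
structure NumLaw (C : κ → ℝ≥0) (P : ι → ℝ → ℝ → ℝ) (r : κ → ℝ → ℝ) : Prop where
  law : ∀ j, Law (P j)
  p0 : ∀ j a w, 0 ≤ w → w ≤ a → a ≤ 1 → 0 ≤ P j a w
  p1 : ∀ j a w, 0 ≤ w → w ≤ a → a ≤ 1 → P j a w ≤ 1
  lip : ∀ k, LipschitzOnWith (C k) (r k) (Icc 0 1)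
  mono : ∀ k, MonotoneOn (r k) (Icc 0 1)
  r0 : ∀ k, r k 0 = 0

/-- **Limits of numbers.** -/
def IsLim (A : ℝ → (ι → ℝ → ℝ → ℝ) → (κ → ℝ → ℝ) → Prop) (P : ι → ℝ → ℝ → ℝ) (r : κ → ℝ → ℝ) :
    Prop :=
  ∀ δ e : ℝ, 0 < δ → 0 < e → ∀ (I : Finset ι) (K : Finset κ), ∃ P' r', A e P' r' ∧
    (∀ j ∈ I, (∀ p, |Lv (P' j) p - Lv (P j) p| ≤ δ) ∧ ∀ a w, 0 ≤ w → w ≤ a → a ≤ 1 →
      P' j a w ≤ P j (a + δ) (w + δ) ∧ P j (a - δ) (w - δ) ≤ P' j a w) ∧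
    ∀ k ∈ K, ∀ x ∈ Icc (0 : ℝ) 1, |r' k x - r k x| ≤ δ

/-- **Limits exist.** -/
theorem exists_lim {A : ℝ → (ι → ℝ → ℝ → ℝ) → (κ → ℝ → ℝ) → Prop} {C : κ → ℝ≥0}
    (hmono : ∀ e e' P r, 0 < e → e ≤ e' → A e P r → A e' P r)
    (hlaw : ∀ e P r, 0 < e → A e P r → NumLaw C P r)
    (hex : ∀ e : ℝ, 0 < e → ∃ P r, A e P r) :
    ∃ P r, NumLaw C P r ∧ (∀ k, LipschitzWith (C k) (r k)) ∧ (∀ k, Monotone (r k)) ∧
      IsLim A P r := by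
  have h1 : ∀ i : ℕ, ∃ P r, A (1 / ((i : ℝ) + 1)) P r := fun i => hex _ (by positivity)
  choose P r hA using h1
  have hN : ∀ i, NumLaw C (P i) (r i) := fun i => hlaw _ _ _ (by positivity) (hA i)
  obtain ⟨U, hU⟩ : ∃ U : Ultrafilter ℕ, U = hyperfilter ℕ := ⟨_, rfl⟩
  have hUt : (U : Filter ℕ) ≤ atTop := by
    rw [hU, ← Nat.cofinite_eq_atTop]
    exact hyperfilter_le_cofinite
  have hP : ∀ j : ι, ∃ Ps : ℝ → ℝ → ℝ, Law Ps ∧ (∀ a w, 0 ≤ w → w ≤ a → a ≤ 1 → 0 ≤ Ps a w) ∧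
      (∀ a w, 0 ≤ w → w ≤ a → a ≤ 1 → Ps a w ≤ 1) ∧
      (∀ p, Tendsto (fun n => Lv (P n j) p) U (𝓝 (Lv Ps p))) ∧
      (∀ δ : ℝ, 0 < δ → ∀ᶠ n in (U : Filter ℕ), ∀ p, |Lv (P n j) p - Lv Ps p| ≤ δ) ∧
      ∀ δ : ℝ, 0 < δ → ∀ᶠ n in (U : Filter ℕ), ∀ a w, 0 ≤ w → w ≤ a → a ≤ 1 →
        P n j a w ≤ Ps (a + δ) (w + δ) ∧ Ps (a - δ) (w - δ) ≤ P n j a w := fun j =>
    ulim_law U (fun n => P n j) (fun n => (hN n).law j) (fun n => (hN n).p0 j)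
      (fun n => (hN n).p1 j)
  choose Ps p1 p2 p3 p4 p5 p6 using hP
  have hr : ∀ k : κ, ∃ f : ℝ → ℝ, LipschitzWith (C k) f ∧ (∀ x ∈ Icc (0 : ℝ) 1,
        Tendsto (fun n => r n k x) U (𝓝 (f x))) ∧
      ((∀ n, MonotoneOn (r n k) (Icc 0 1)) → Monotone f) ∧
      ∀ η : ℝ, 0 < η → ∀ᶠ n in (U : Filter ℕ), ∀ x ∈ Icc (0 : ℝ) 1, |r n k x - f x| ≤ η :=
    fun k => ulim_num U (fun n => r n k) (C k) (fun n => (hN n).lip k) (C k) fun n x hx => by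
      have h2 := (hN n).lip k |>.dist_le_mul x hx 0 (left_mem_Icc.2 zero_le_one)
      rw [Real.dist_eq, Real.dist_eq, (hN n).r0 k, sub_zero, sub_zero, abs_of_nonneg hx.1] at h2
      refine h2.trans ?_
      calc (C k : ℝ) * x ≤ C k * 1 := mul_le_mul_of_nonneg_left hx.2 (C k).2
        _ = C k := mul_one _
  choose rs r1 r2 r3 r4 using hr
  refine ⟨Ps, rs, ⟨p1, p2, p3, fun k => (r1 k).lipschitzOnWith, fun k => ?_, fun k => ?_⟩, r1,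
    fun k => r3 k fun n => (hN n).mono k, ?_⟩
  · exact (r3 k fun n => (hN n).mono k).monotoneOn _
  · refine tendsto_nhds_unique (r2 k 0 (left_mem_Icc.2 zero_le_one)) ?_
    refine tendsto_const_nhds.congr fun n => ?_
    exact ((hN n).r0 k).symm
  intro δ e hδ he I K
  have e1 : ∀ᶠ n : ℕ in (U : Filter ℕ), 1 / ((n : ℝ) + 1) < e := by
    have : Tendsto (fun n : ℕ => 1 / ((n : ℝ) + 1)) atTop (𝓝 0) :=
      tendsto_one_div_add_atTop_nhds_zero_nat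
    exact hUt ((tendsto_order.1 this).2 e he)
  have e2 : ∀ᶠ n : ℕ in (U : Filter ℕ), ∀ j ∈ I, (∀ p, |Lv (P n j) p - Lv (Ps j) p| ≤ δ) ∧
      ∀ a w, 0 ≤ w → w ≤ a → a ≤ 1 →
        P n j a w ≤ Ps j (a + δ) (w + δ) ∧ Ps j (a - δ) (w - δ) ≤ P n j a w := by
    rw [Filter.eventually_all_finset]
    intro j _
    exact (p5 j δ hδ).and (p6 j δ hδ)
  have e3 : ∀ᶠ n : ℕ in (U : Filter ℕ), ∀ k ∈ K, ∀ x ∈ Icc (0 : ℝ) 1, |r n k x - rs k x| ≤ δ := by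
    rw [Filter.eventually_all_finset]
    intro k _
    exact r4 k δ hδ
  obtain ⟨n, h1, h2, h3⟩ := (e1.and (e2.and e3)).exists
  exact ⟨P n, r n, hmono _ _ _ _ (by positivity) h1.le (hA n), h2, h3⟩

variable {A : ℝ → (ι → ℝ → ℝ → ℝ) → (κ → ℝ → ℝ) → Prop} {P : ι → ℝ → ℝ → ℝ} {r : κ → ℝ → ℝ}

/-- Closed upper bounds for rates pass to the limit. -/
theorem IsLim.le (h : IsLim A P r) {k : κ} {x c : ℝ} (hx : x ∈ Icc (0 : ℝ) 1)
    (hc : ∀ η : ℝ, 0 < η → ∃ e : ℝ, 0 < e ∧ ∀ P' r', A e P' r' → r' k x ≤ c + η) :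
    r k x ≤ c := by
  refine le_of_forall_pos_le_add fun η hη => ?_
  obtain ⟨e, he, h1⟩ := hc (η / 2) (half_pos hη)
  obtain ⟨P', r', hA, -, h3⟩ := h (η / 2) e (half_pos hη) he ∅ {k}
  have h4 := h1 P' r' hA
  have h5 := (abs_le.1 (h3 k (Finset.mem_singleton_self k) x hx)).1
  linarith

/-- Upper bounds for the thresholds pass to the limit, on smaller windows. -/
theorem IsLim.diag (h : IsLim A P r) {j : ι} {a w a' w' c : ℝ} (h0 : 0 ≤ w') (h1 : w' < w)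
    (h2 : w' ≤ a') (h3 : a' < a) (h4 : a ≤ 1) (hw : w ≤ a) (hl : Law (P j))
    (hc : ∃ e : ℝ, 0 < e ∧ ∀ P' r', A e P' r' → P' j a w ≤ c) : P j a' w' ≤ c := by
  obtain ⟨e, he, hc⟩ := hc
  obtain ⟨δ, hδ⟩ : ∃ δ, δ = min (a - a') (w - w') := ⟨_, rfl⟩
  have hδ0 : 0 < δ := by
    rw [hδ]
    exact lt_min (by linarith) (by linarith)
  have hδa : δ ≤ a - a' := by
    rw [hδ]
    exact min_le_left _ _
  have hδw : δ ≤ w - w' := by
    rw [hδ]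
    exact min_le_right _ _
  obtain ⟨P', r', hA, h5, -⟩ := h δ e hδ0 he {j} ∅
  have h6 := ((h5 j (Finset.mem_singleton_self j)).2 a w (by linarith) hw h4).2
  have h7 := hc P' r' hA
  have h8 : P j a' w' ≤ P j (a - δ) (w - δ) :=
    hl.mono h0 h2 (by linarith) (by linarith) (by linarith) (by linarith)
  linarith

/-- **The assembly for the limit numbers**: the target `j` and the rows `k`. -/
theorem lim_contra {C : κ → ℝ≥0} {k₀ : κ} (hN : NumLaw C P r) (hm : Monotone (r k₀)) {j₀ : ι}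
    {s c : ℝ} (hc : 0 < c)
    (hdiag : ∀ η : ℝ, 0 < η → ∃ w : ℝ, 0 < w ∧ w ≤ 1 ∧ P j₀ w w ≤ s + η)
    (hF : r k₀ 1 ≤ 1 - s - c)
    (hJ : JmpN (P j₀) (r k₀)) (hM : MicB (P j₀) (r k₀)) (hS : StaU (P j₀) (r k₀)) : False := by
  obtain ⟨w, hw, hw1, h1⟩ := hdiag (c / 2) (half_pos hc)
  have h0 := hN.p0 j₀ w w hw.le le_rfl hw1
  have h2 := rowsU (hN.law j₀) hw hw1 h0 (hN.p1 j₀ w w hw.le le_rfl hw1)
    (hm.monotoneOn _) hJ hM hS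
  have h3 : 0 ≤ r k₀ (P j₀ w w) := by
    rw [← hN.r0 k₀]
    exact hm h0
  linarith

end Pool.STR
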