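import Pool.Agent.H1.GEN.Fx
import Pool.Agent.H1.GEN.Lmt

/-!
# The classes of the exactness theorem

`ClX s d e K₀ N al g₀ S`: the hypotheses of `FTX n` for the class `S`, with the slack `e`.
They are inherited by nonempty subclasses and by larger slacks. `ClX.cnt`: the number of the
values of the rounded points is at most exponential.
`BadX`: the class is a counterexample to the exactness theorem. `bad_of_not`: if `FTX n` fails,
there are such classes with the same numbers and arbitrarily small slack.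
-/

set_option autoImplicit false

namespace Pool.GEN

open Finset Real MvPolynomial
open Pool.Agent.H49.Ent Pool.Agent.H32.Dense Pool.STK Pool.KA Pool.KSAT Pool.K2S Pool.PB Pool.S6C
open Pool.ZCL

variable {n J : ℕ}

/-- **The classes of the exactness theorem.** -/
structure ClX {n : ℕ} (s : Fin n → ℝ) (d : ℕ → ℝ) (al : ℝ) (g₀ : ℝ → ℝ) (e : ℝ) (K₀ : ℕ)
    (N : ℚ → ℚ → ℝ) (S : PCl n) : Prop where
  actm : ActM N al g₀
  ne : S.Ne
  mem : ∀ (τ : ℝ) (J : ℕ) (F : Fam n J) (A : F.Ω → Prop), S.St τ J F A → F.Tr ∧ F.Tm (τ * J) ∧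
    F.Rb (τ * J) ∧ Real.exp (-(τ * J)) ≤ Pe F.p A ∧ Gd F ∧ GraX K₀ e s J F ∧ Zc F
  btr : ∀ l K : ℕ, e ≤ 1 / ((l : ℝ) + 1) →
    Bas S (fun J F A => ¬ BtrX s (d l) (1 / ((l : ℝ) + 1)) K J F A)
  actb : ∀ k : Fin n, (k : ℕ) = 0 → ActB N S k

/-- A counterexample to the exactness theorem. -/
def BadX {n : ℕ} (s : Fin n → ℝ) (d : ℕ → ℝ) (al : ℝ) (g₀ : ℝ → ℝ) (ρ e : ℝ) (S : PCl n) : Prop :=
  (∃ K₀ N, ClX s d al g₀ e K₀ N S) ∧
    Bas S (fun J F A => CH (Pool.Agent.H49.Ent.cond F.p A True) (F.X J) F.W ≤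
      ((∑ j, (1 - s j)) - ρ) * Real.log 2 * J)

variable {s : Fin n → ℝ} {d : ℕ → ℝ} {al : ℝ} {g₀ : ℝ → ℝ} {ρ e : ℝ} {K₀ : ℕ} {N : ℚ → ℚ → ℝ}
  {S S' : PCl n}

theorem GraX.mono {K : ℕ} {e e' : ℝ} {s : Fin n → ℝ} {F : Fam n J} (h : GraX K e s J F)
    (he : e ≤ e') : GraX K e' s J F := by
  have hJ : (0 : ℝ) ≤ J := Nat.cast_nonneg J
  obtain ⟨G, h1, h2⟩ := h
  refine ⟨G, h1, fun ω hω j k hjk => ?_⟩
  obtain ⟨h3, h4⟩ := h2 ω hω j k hjk
  refine ⟨h3.trans (inv_mono (Nat.floor_le_floor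
    (mul_le_mul_of_nonneg_right (by linarith) hJ))), fun b hb o => ?_⟩
  refine (h4 b (fun o' => (hb o').trans (inv_mono (Nat.floor_le_floor
    (mul_le_mul_of_nonneg_right (min_le_min_right _ (by linarith)) hJ)))) o).trans ?_
  exact pow_le_pow_right₀ (by norm_num)
    (Nat.floor_le_floor (mul_le_mul_of_nonneg_right he hJ))

theorem ClX.sub (h : ClX s d al g₀ e K₀ N S) (hne : S'.Ne)
    (hs : ∀ (τ : ℝ) (J : ℕ) (F : Fam n J) (A : F.Ω → Prop), S'.St τ J F A → S.St τ J F A) :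
    ClX s d al g₀ e K₀ N S' :=
  ⟨h.actm, hne, fun τ J F A hA => h.mem τ J F A (hs τ J F A hA),
    fun l K hl => Bas.sub hs (h.btr l K hl),
    fun k hk q q' h0 h1 h2 h' hh => Bas.sub hs (h.actb k hk q q' h0 h1 h2 h' hh)⟩

theorem ClX.slack (h : ClX s d al g₀ e K₀ N S) {e' : ℝ} (he : e ≤ e') :
    ClX s d al g₀ e' K₀ N S :=
  ⟨h.actm, h.ne, fun τ J F A hA => by
    obtain ⟨h1, h2, h3, h4, h5, h6, h7⟩ := h.mem τ J F A hA
    exact ⟨h1, h2, h3, h4, h5, h6.mono he, h7⟩,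
    fun l K hl => h.btr l K (he.trans hl), h.actb⟩

theorem BadX.sub (h : BadX s d al g₀ ρ e S) (hne : S'.Ne)
    (hs : ∀ (τ : ℝ) (J : ℕ) (F : Fam n J) (A : F.Ω → Prop), S'.St τ J F A → S.St τ J F A) :
    BadX s d al g₀ ρ e S' := by
  obtain ⟨⟨K₀, N, h1⟩, h2⟩ := h
  exact ⟨⟨K₀, N, h1.sub hne hs⟩, Bas.sub hs h2⟩

theorem BadX.slack (h : BadX s d al g₀ ρ e S) {e' : ℝ} (he : e ≤ e') :
    BadX s d al g₀ ρ e' S := by
  obtain ⟨⟨K₀, N, h1⟩, h2⟩ := h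
  exact ⟨⟨K₀, N, h1.slack he⟩, h2⟩

/-- **If the exactness theorem fails, there are counterexamples with the same numbers and
arbitrarily small slack.** -/
theorem bad_of_not {n : ℕ} (h : ¬ FTX n) : ∃ (ρ al : ℝ) (g₀ : ℝ → ℝ) (s : Fin n → ℝ) (d : ℕ → ℝ),
    0 < ρ ∧ 0 < al ∧ (∀ ε : ℝ, 0 < ε → 0 < g₀ ε) ∧ NumX s d ∧
      ∀ e : ℝ, 0 < e → ∃ S : PCl n, BadX s d al g₀ ρ e S := by
  unfold FTX at h
  push Not at h
  obtain ⟨ρ, al, hρ, hal, g₀, hg₀, s, d, hsd, h⟩ := h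
  refine ⟨ρ, al, g₀, s, d, hρ, hal, hg₀, hsd, fun e he => ?_⟩
  obtain ⟨K₀, N, hN, S, hS, h1, h2, h3, h4⟩ := h e he
  exact ⟨S, ⟨K₀, N, hN, hS, h1, h2, h3⟩, h4⟩

/-- The members have positive probability. -/
theorem ClX.pos (h : ClX s d al g₀ e K₀ N S) (τ : ℝ) (J : ℕ) (F : Fam n J) (A : F.Ω → Prop)
    (hA : S.St τ J F A) : 0 < Pe F.p A :=
  lt_of_lt_of_le (Real.exp_pos _) (h.mem τ J F A hA).2.2.2.1

/-- The rounded lines and the time determine the point. -/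
theorem gd_x {F : Fam n J} (hG : Gd F) (ω : F.Ω) (i : Fin n) : 0 ≤ F.x ω i ∧ F.x ω i ≤ 2 := by
  obtain ⟨⟨h1, h2⟩, h3, -, -⟩ := hG ω i
  have h4 : F.d ω i ≤ 1 := (le_abs_self _).trans (F.dir ω i)
  have h5 : 0 ≤ F.t ω := by
    unfold Fam.t
    positivity
  have h6 : F.t ω ≤ 1 := by
    unfold Fam.t
    rw [div_le_one (by positivity)]
    exact_mod_cast (F.tim ω).le
  have h7 : 0 ≤ F.t ω * F.d ω i := mul_nonneg h5 h3
  have h8 : F.t ω * F.d ω i ≤ 1 := by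
    calc F.t ω * F.d ω i ≤ 1 * 1 := mul_le_mul h6 h4 h3 zero_le_one
      _ = 1 := one_mul _
  unfold Fam.x
  constructor <;> linarith

/-- **The number of the values of the rounded points.** -/
theorem cnt_ptr {F : Fam n J} (hG : Gd F) (hZ : Zc F) (A : F.Ω → Prop) {k : ℕ} (hk : k ≤ J) :
    (cnt F.p (ptr F k) A : ℝ) ≤ Real.exp ((2 * n + 1) * J + 2 * n) := by
  classical
  have hp := F.isLaw
  obtain ⟨ω₀, hω₀⟩ : ∃ ω, 0 < F.p ω := by
    by_contra hcon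
    push Not at hcon
    have h1 := hp.sum_one
    rw [Finset.sum_eq_zero fun ω _ => le_antisymm (hcon ω) (hp.nonneg ω)] at h1
    exact zero_ne_one h1
  have h1 : cnt F.p (ptr F k) A ≤
      ((Fintype.piFinset fun _ : Fin n => (Finset.Icc 0 (2 * 2 ^ J) : Finset ℤ)) ×ˢ
        (Finset.range (2 ^ J) ×ˢ {F.Z ω₀})).card := by
    refine cnt_le_card F.p (ptr F k) _ fun ω hω _ => ?_
    rw [Finset.mem_product, Finset.mem_product, Fintype.mem_piFinset, Finset.mem_singleton,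
      Finset.mem_range]
    refine ⟨fun i => ?_, F.tim ω, hZ ω ω₀ hω hω₀⟩
    rw [Finset.mem_Icc]
    obtain ⟨h2, h3⟩ := gd_x hG ω i
    change 0 ≤ ⌊(2 : ℝ) ^ k * F.x ω i⌋ ∧ ⌊(2 : ℝ) ^ k * F.x ω i⌋ ≤ 2 * 2 ^ J
    constructor
    · exact Int.floor_nonneg.2 (by positivity)
    · rw [← Int.lt_add_one_iff, Int.floor_lt]
      push_cast
      have h4 : (2 : ℝ) ^ k ≤ 2 ^ J := pow_le_pow_right₀ (by norm_num) hk
      have h5 : (2 : ℝ) ^ k * F.x ω i ≤ 2 ^ J * 2 := mul_le_mul h4 h3 h2 (by positivity)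
      linarith
  have h2 : ((Fintype.piFinset fun _ : Fin n => (Finset.Icc 0 (2 * 2 ^ J) : Finset ℤ)) ×ˢ
        (Finset.range (2 ^ J) ×ˢ {F.Z ω₀})).card = (2 * 2 ^ J + 1) ^ n * (2 ^ J * 1) := by
    rw [Finset.card_product, Finset.card_product, Fintype.card_piFinset]
    simp only [Int.card_Icc, Finset.prod_const, Finset.card_univ, Fintype.card_fin,
      Finset.card_range, Finset.card_singleton]
    have : ((2 : ℤ) * 2 ^ J + 1 - 0).toNat = 2 * 2 ^ J + 1 := by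
      have h1 : ((2 : ℤ) * 2 ^ J + 1 - 0) = ((2 * 2 ^ J + 1 : ℕ) : ℤ) := by push_cast; ring
      rw [h1, Int.toNat_natCast]
    rw [this]
  rw [h2] at h1
  have h3 : (cnt F.p (ptr F k) A : ℝ) ≤ ((2 * 2 ^ J + 1) ^ n * (2 ^ J * 1) : ℕ) := by
    exact_mod_cast h1
  refine h3.trans ?_
  push_cast
  have e1 : (2 : ℝ) ≤ Real.exp 1 := by
    have := Real.add_one_le_exp (1 : ℝ)
    linarith
  have e2 : (2 : ℝ) * 2 ^ J + 1 ≤ 2 ^ (J + 2) := by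
    have : (1 : ℝ) ≤ 2 ^ J := one_le_pow₀ (by norm_num)
    rw [pow_add]
    linarith
  have e3 : ((2 : ℝ) * 2 ^ J + 1) ^ n ≤ Real.exp 1 ^ ((J + 2) * n) := by
    calc ((2 : ℝ) * 2 ^ J + 1) ^ n ≤ (2 ^ (J + 2)) ^ n := pow_le_pow_left₀ (by positivity) e2 n
      _ = 2 ^ ((J + 2) * n) := by rw [← pow_mul]
      _ ≤ _ := pow_le_pow_left₀ (by norm_num) e1 _
  have e4 : (2 : ℝ) ^ J * 1 ≤ Real.exp 1 ^ J := by
    rw [mul_one]
    exact pow_le_pow_left₀ (by norm_num) e1 _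
  refine (mul_le_mul e3 e4 (by positivity) (by positivity)).trans ?_
  rw [← pow_add, ← Real.exp_nat_mul, mul_one]
  refine Real.exp_le_exp.2 ?_
  push_cast
  have hn : (0 : ℝ) ≤ n := Nat.cast_nonneg n
  have hJ : (0 : ℝ) ≤ J := Nat.cast_nonneg J
  have : 0 ≤ (n : ℝ) * J := mul_nonneg hn hJ
  linarith

theorem ClX.cnt (h : ClX s d al g₀ e K₀ N S) :
    Bas S (fun J F A => ∀ k : ℕ, k ≤ J →
      (cnt F.p (ptr F k) A : ℝ) ≤ Real.exp ((4 * n + 1) * J)) := by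
  refine ⟨1, one_pos, 1, fun J hJ F A hA k hk => ?_⟩
  obtain ⟨-, -, -, -, h5, -, h7⟩ := h.mem 1 J F A hA
  refine (cnt_ptr h5 h7 A hk).trans (Real.exp_le_exp.2 ?_)
  have hJ1 : (1 : ℝ) ≤ J := by exact_mod_cast hJ
  have hn : (0 : ℝ) ≤ n := Nat.cast_nonneg n
  nlinarith

end Pool.GEN
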