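import Pool.Agent.H60.ZCL.BTail

/-!
# The number of values on the fibres

`CntC p X W N A`: on every fibre of `W` the function `X` has at most `N` values on the event `A`.
`ch_le_cntC`: then the conditional entropy is at most `log N`. `ch_ge_cntC`: if no large subevent
has this property, the conditional entropy is almost `log N`.
-/

set_option autoImplicit false

namespace Pool.GEN

open Finset Real
open Pool.Agent.H49.Ent Pool.Agent.H32.Dense Pool.STK Pool.KA Pool.K2S Pool.PB Pool.S6C

variable {Ω β γ : Type} [Fintype Ω]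

/-- On every fibre of `W` the function `X` has at most `N` values on the event. -/
def CntC (p : Ω → ℝ) (X : Ω → β) (W : Ω → γ) (N : ℝ) (A : Ω → Prop) : Prop :=
  ∀ w, (cnt p X (fun ω => A ω ∧ W ω = w) : ℝ) ≤ N

theorem CntC.sub {p : Ω → ℝ} {X : Ω → β} {W : Ω → γ} {N : ℝ} {A B : Ω → Prop}
    (h : CntC p X W N A) (hB : Sub B A) : CntC p X W N B := fun w => by
  have h1 : cnt p X (fun ω => B ω ∧ W ω = w) ≤ cnt p X (fun ω => A ω ∧ W ω = w) :=
    cnt_mono p X (A := fun ω => A ω ∧ W ω = w) (B := fun ω => B ω ∧ W ω = w)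
      (fun ω hω => ⟨hB ω hω.1, hω.2⟩)
  exact le_trans (by exact_mod_cast h1) (h w)

/-- The conditional entropy is at most the logarithm of the number of values. -/
theorem ch_le_cntC {p : Ω → ℝ} (hp : IsLaw p) (X : Ω → β) (W : Ω → γ) {N : ℝ} (hN : 1 ≤ N)
    {A : Ω → Prop} (hA : 0 < Pe p A) (h : CntC p X W N A) :
    CH (Pool.Agent.H49.Ent.cond p A True) X W ≤ Real.log N := by
  classical
  obtain ⟨q, hq⟩ : ∃ q, q = Pool.Agent.H49.Ent.cond p A True := ⟨_, rfl⟩
  have hql : IsLaw q := by
    rw [hq]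
    exact isLaw_cond hp hA
  rw [← hq, CH_eq_sum hql.nonneg]
  have hlN : 0 ≤ Real.log N := Real.log_nonneg hN
  have e1 : ∑ z ∈ univ.image W, law q W z * H (Pool.Agent.H49.Ent.cond q W z) X ≤
      ∑ z ∈ univ.image W, law q W z * Real.log N := by
    refine sum_le_sum fun z _ => ?_
    rcases (law_nonneg hql.nonneg W z).eq_or_lt with h0 | h0
    · rw [← h0, zero_mul, zero_mul]
    refine mul_le_mul_of_nonneg_left ?_ h0.le
    have h1 := H_le_log_card (cond_nonneg hql.nonneg W z) (sum_cond q W h0.ne') X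
      ((univ.filter fun ω => 0 < p ω ∧ A ω ∧ W ω = z).image X) (by
        intro ω hω
        refine mem_image_of_mem X ?_
        have h2 := (cond_pos_iff hql.nonneg W z ω).1 hω
        have h3 := h2.1
        rw [hq] at h3
        have h4 := (cond_pos_iff hp.nonneg A True ω).1 h3
        rw [mem_filter]
        exact ⟨mem_univ ω, h4.1, of_eq_true h4.2, h2.2⟩)
    refine h1.trans ?_
    have h5 : (((univ.filter fun ω => 0 < p ω ∧ A ω ∧ W ω = z).image X).card : ℝ) ≤ N := by
      have h6 := h z
      unfold cnt at h6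
      convert h6
    rcases Nat.eq_zero_or_pos
      ((univ.filter fun ω => 0 < p ω ∧ A ω ∧ W ω = z).image X).card with h6 | h6
    · rw [h6]
      simpa using hlN
    · exact Real.log_le_log (by exact_mod_cast h6) h5
  refine e1.trans (le_of_eq ?_)
  rw [← sum_mul, sum_law, hql.sum_one, one_mul]

/-- If no large subevent has few values on the fibres, the conditional entropy is large. -/
theorem ch_ge_cntC {p : Ω → ℝ} (hp : IsLaw p) (X : Ω → β) (W : Ω → γ) {M : ℝ} (hM : 1 ≤ M)
    {A : Ω → Prop} (hA : 0 < Pe p A) {κ : ℝ} (h : ∀ B : Ω → Prop, Sub B A →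
      Real.exp (-κ) * Pe p A ≤ Pe p B → ¬ CntC p X W M B) :
    (1 - Real.exp (-κ)) * Real.log M ≤ CH (Pool.Agent.H49.Ent.cond p A True) X W := by
  classical
  obtain ⟨q, hq⟩ : ∃ q, q = Pool.Agent.H49.Ent.cond p A True := ⟨_, rfl⟩
  have hql : IsLaw q := by rw [hq]; exact isLaw_cond hp hA
  obtain ⟨B, hB⟩ : ∃ B : Ω → Prop, B = fun ω => A ω ∧
      law q W (W ω) ≤ M * law q (fun ω => (X ω, W ω)) (X ω, W ω) := ⟨_, rfl⟩
  have hM0 : 0 < M := by linarith
  have hBA : Sub B A := fun ω hω => by
    rw [hB] at hω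
    exact hω.1
  have hposq : ∀ ω, 0 < p ω → A ω → 0 < q ω := fun ω h0 h1 => by
    rw [hq]
    exact (cond_pos_iff hp.nonneg A True ω).2 ⟨h0, eq_true h1⟩
  have hcard : CntC p X W M B := by
    intro w
    obtain ⟨I, hI⟩ : ∃ I, I = (univ.filter fun ω => 0 < p ω ∧ B ω ∧ W ω = w).image X := ⟨_, rfl⟩
    have e1 : (cnt p X (fun ω => B ω ∧ W ω = w) : ℝ) = I.card := by
      unfold cnt
      rw [hI]
      congr!
    rw [e1]
    rcases I.eq_empty_or_nonempty with h0 | ⟨y0, hy0⟩
    · rw [h0]
      simpa using hM0.le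
    have hw : 0 < law q W w := by
      rw [hI, mem_image] at hy0
      obtain ⟨ω, hω, rfl⟩ := hy0
      rw [mem_filter] at hω
      have h1 := law_pos hql.nonneg W (hposq ω hω.2.1 (hBA ω hω.2.2.1))
      rwa [hω.2.2.2] at h1
    have e2 : (I.card : ℝ) * (law q W w / M) ≤ ∑ y ∈ I, law q (fun ω => (X ω, W ω)) (y, w) := by
      rw [← nsmul_eq_mul]
      refine card_nsmul_le_sum I _ _ fun y hy => ?_
      rw [hI, mem_image] at hy
      obtain ⟨ω, hω, rfl⟩ := hy
      rw [mem_filter] at hω
      have h2 := hω.2.2.1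
      rw [hB] at h2
      rw [div_le_iff₀ hM0, mul_comm]
      have h3 := h2.2
      rwa [hω.2.2.2] at h3
    have e3 : ∑ y ∈ I, law q (fun ω => (X ω, W ω)) (y, w) ≤ law q W w := by
      unfold law
      rw [sum_comm]
      refine sum_le_sum fun ω _ => ?_
      by_cases hω : W ω = w
      · rw [if_pos hω]
        by_cases hx : X ω ∈ I
        · rw [sum_eq_single (X ω)]
          · rw [if_pos (show (X ω, W ω) = (X ω, w) from Prod.ext rfl hω)]
          · intro y _ hy
            rw [if_neg]
            intro h1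
            exact hy (Prod.ext_iff.1 h1).1.symm
          · intro h1
            exact absurd hx h1
        · rw [sum_eq_zero]
          · exact hql.nonneg ω
          · intro y hy
            rw [if_neg]
            intro h1
            have h2 : X ω = y := (Prod.ext_iff.1 h1).1
            exact hx (h2 ▸ hy)
      · rw [if_neg hω, sum_eq_zero]
        intro y _
        rw [if_neg]
        intro h1
        exact hω (Prod.ext_iff.1 h1).2
    have e4 := e2.trans e3
    have e5 : (I.card : ℝ) * (law q W w / M) = law q W w * (I.card / M) := by ring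
    rw [e5] at e4
    have e6 : (I.card : ℝ) / M ≤ 1 := by
      by_contra hcon
      push Not at hcon
      have := mul_lt_mul_of_pos_left hcon hw
      linarith
    rwa [div_le_one hM0] at e6
  have hPB : Pe p B < Real.exp (-κ) * Pe p A := by
    by_contra hcon
    push Not at hcon
    exact h B hBA hcon hcard
  have hqB : Pe q B ≤ Real.exp (-κ) := by
    rw [hq, Pe_cond, div_le_iff₀ hA]
    refine le_trans (Pe_mono hp ?_) hPB.le
    intro ω hω
    exact hω.2
  have hlM : 0 ≤ Real.log M := Real.log_nonneg hM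
  have hH : CH q X W = ∑ ω, q ω * (-Real.log (law q (fun ω => (X ω, W ω)) (X ω, W ω) /
      law q W (W ω))) := by
    rw [CH_eq_neg_sum hql.nonneg]
    rfl
  have hpt : ∀ ω, q ω * (if B ω then 0 else Real.log M) ≤
      q ω * (-Real.log (law q (fun ω => (X ω, W ω)) (X ω, W ω) / law q W (W ω))) := by
    intro ω
    by_cases h0 : q ω = 0
    · rw [h0, zero_mul, zero_mul]
    have hqω : 0 < q ω := lt_of_le_of_ne (hql.nonneg ω) (Ne.symm h0)
    have hlp := law_pos hql.nonneg (fun ω => (X ω, W ω)) hqω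
    have hlw := law_pos hql.nonneg W hqω
    have hl1 : law q (fun ω => (X ω, W ω)) (X ω, W ω) ≤ law q W (W ω) := by
      unfold law
      refine sum_le_sum fun ω' _ => ?_
      by_cases h1 : (X ω', W ω') = (X ω, W ω)
      · rw [if_pos h1, if_pos (Prod.ext_iff.1 h1).2]
      · rw [if_neg h1]
        split_ifs
        · exact hql.nonneg ω'
        · exact le_rfl
    have hd : 0 < law q (fun ω => (X ω, W ω)) (X ω, W ω) / law q W (W ω) := div_pos hlp hlw
    refine mul_le_mul_of_nonneg_left ?_ hqω.le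
    by_cases hBω : B ω
    · rw [if_pos hBω]
      have := Real.log_nonpos hd.le ((div_le_one hlw).2 hl1)
      linarith
    · rw [if_neg hBω]
      have hAω : A ω := by
        rw [hq] at hqω
        have := ((cond_pos_iff hp.nonneg A True ω).1 hqω).2
        simpa using this
      have hlt : M * law q (fun ω => (X ω, W ω)) (X ω, W ω) < law q W (W ω) := by
        by_contra hcon
        push Not at hcon
        refine hBω ?_
        rw [hB]
        exact ⟨hAω, hcon⟩
      have h2 : law q (fun ω => (X ω, W ω)) (X ω, W ω) / law q W (W ω) ≤ 1 / M := by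
        rw [div_le_div_iff₀ hlw hM0]
        linarith
      have := Real.log_le_log hd h2
      rw [one_div, Real.log_inv] at this
      linarith
  have hsum : ∑ ω, q ω * (if B ω then 0 else Real.log M) = (1 - Pe q B) * Real.log M := by
    have e1 : ∀ ω, q ω * (if B ω then 0 else Real.log M) =
        q ω * Real.log M - (if B ω then q ω else 0) * Real.log M := by
      intro ω
      by_cases hBω : B ω
      · simp [hBω]
      · simp [hBω]
    rw [sum_congr rfl fun ω _ => e1 ω, sum_sub_distrib, ← sum_mul, ← sum_mul, hql.sum_one,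
      ← Pe_eq]
    ring
  rw [← hq, hH]
  refine le_trans ?_ (sum_le_sum fun ω _ => hpt ω)
  rw [hsum]
  exact mul_le_mul_of_nonneg_right (by linarith) hlM

/-- **Lower bounds for conditional entropies from classes with few values.** If no subclass of the
large events with at most `e ^ (b' J)` values on the fibres is nonempty, the conditional entropy is
at least `b J`, `b < b'`. -/
theorem ch_ge_of {m : ℕ} {S : PCl m}
    (hpos : ∀ (τ : ℝ) (J : ℕ) (F : Fam m J) (A : F.Ω → Prop), S.St τ J F A → 0 < Pe F.p A)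
    {b b' : ℝ} (hb : b < b') (hb0 : 0 < b')
    {β γ : ∀ J : ℕ, Fam m J → Type} (Y : ∀ (J : ℕ) (F : Fam m J), F.Ω → β J F)
    (W : ∀ (J : ℕ) (F : Fam m J), F.Ω → γ J F)
    (h : Bas S (fun J F A => ¬ CntC F.p (Y J F) (W J F) (Real.exp (b' * J)) A)) :
    Bas S (fun J F A => b * J ≤ CH (Pool.Agent.H49.Ent.cond F.p A True) (Y J F) (W J F)) := by
  obtain ⟨τ, hτ, J₁, h⟩ := h
  obtain ⟨J₂, hJ₂⟩ : ∃ J₂ : ℕ, ∀ J ≥ J₂, Real.exp (-(τ / 2 * J)) ≤ (b' - b) / b' := by
    have hc : 0 < (b' - b) / b' := div_pos (by linarith) hb0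
    obtain ⟨J₂, hJ₂⟩ := exists_nat_ge (2 * |Real.log ((b' - b) / b')| / τ)
    refine ⟨J₂, fun J hJ => ?_⟩
    have h1 : 2 * |Real.log ((b' - b) / b')| / τ ≤ J := hJ₂.trans (by exact_mod_cast hJ)
    rw [div_le_iff₀ hτ] at h1
    rw [← Real.le_log_iff_exp_le hc]
    have h2 := neg_abs_le (Real.log ((b' - b) / b'))
    linarith
  refine ⟨τ / 2, by linarith, max J₁ J₂, fun J hJ F A hA => ?_⟩
  have hA0 := hpos _ J F A hA
  have hJ0 : (0 : ℝ) ≤ J := Nat.cast_nonneg J
  have hM : 1 ≤ Real.exp (b' * J) := by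
    exact Real.one_le_exp (by positivity)
  have h1 := ch_ge_cntC F.isLaw (Y J F) (W J F) hM hA0 (κ := τ / 2 * J) (by
    intro B hB hP
    refine h J ((le_max_left _ _).trans hJ) F B ?_
    have h2 := S.res (τ' := τ / 2) (by linarith) hA hB hP
    have e : τ / 2 + τ / 2 = τ := by ring
    rwa [e] at h2)
  rw [Real.log_exp] at h1
  refine le_trans ?_ h1
  have h3 := hJ₂ J ((le_max_right _ _).trans hJ)
  have h4 : b / b' ≤ 1 - Real.exp (-(τ / 2 * J)) := by
    have : (b' - b) / b' = 1 - b / b' := by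
      rw [sub_div, div_self hb0.ne']
    linarith
  have h5 := mul_le_mul_of_nonneg_right h4 (mul_nonneg hb0.le hJ0)
  have h6 : b / b' * (b' * J) = b * J := by
    field_simp
  linarith

end Pool.GEN
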