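import Pool.Agent.H1.GEN.LeafN

/-!
# `FTC n → FTZ n`
-/

set_option autoImplicit false

namespace Pool.GEN

open Finset Real MvPolynomial
open Pool.Agent.H49.Ent Pool.Agent.H32.Dense Pool.STK Pool.KA Pool.KSAT Pool.K2S Pool.PB Pool.S6C

/-- **The exactness theorem for families with side information.** -/
theorem ftz_of {n : ℕ} (hF : FTC n) : FTZ n := by
  intro ρ al hρ hal g₀ hg₀
  obtain ⟨x, hx, h⟩ := hF (ρ / 2) al (half_pos hρ) hal g₀ hg₀
  refine ⟨x, hx, fun s u hN w hw hwu N hNA => ?_⟩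
  obtain ⟨e, he, h⟩ := h s u hN w hw hwu N hNA
  refine ⟨e, he, fun K₀ ψ hψ => ?_⟩
  exact ftz_core hρ (fun S hS h1 h2 h3 => h K₀ S hS h1 h2 h3) ψ hψ

end Pool.GEN
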