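import Pool.Agent.H1.GEN.LeafN

/-!
# The exactness theorem with exact numbers

`FTX n`: for all numbers `s` and every modulus `d` there is `e > 0` such that in every class with
attained labels of precision `s - e` (given by the side information) and without labels of
precision `s + 1 / (l + 1)` on the windows `d l`, for all `l` with `e ≤ 1 / (l + 1)`, the positions
have almost the entropy `∑ j, (1 - s j)`. (In the members of the class the side information is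
constant.)
`FZX n`: the same for a single family with side information of any size.
`fzx_of : FTX n → FZX n`.
-/

set_option autoImplicit false

namespace Pool.GEN

open Finset Real MvPolynomial
open Pool.Agent.H49.Ent Pool.Agent.H32.Dense Pool.STK Pool.KA Pool.KSAT Pool.K2S Pool.PB Pool.S6C
open Pool.ZCL

variable {n J : ℕ}

/-- The numbers of a class. -/
structure NumX {n : ℕ} (s : Fin n → ℝ) (d : ℕ → ℝ) : Prop where
  ms : Monotone s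
  s0 : ∀ j, 0 ≤ s j
  s1 : ∀ j, s j ≤ 1
  z : ∀ j : Fin n, (j : ℕ) = 0 → s j = 0
  d0 : ∀ l, 0 < d l

/-- **Attained labels.** The family is contained in graphs of polynomials which are functions of
the side information: all coordinates `k ≥ j` over the first `j` coordinates, with precision
`2 ^ (-(s j - e) J)` and gradient at most `2 ^ (e J)` on the balls of radius
`2 ^ (-min (s (j - 1) + e) 1 J)`. -/
def GraX {n : ℕ} (K : ℕ) (e : ℝ) (s : Fin n → ℝ) (J : ℕ) (F : Fam n J) : Prop :=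
  ∃ G : F.ζ → Fin n → Fin n → MvPolynomial (Option (Fin n)) ℝ,
    (∀ z j k, (G z j k).totalDegree ≤ K ∧ DepOn (Finset.Iio j) (G z j k)) ∧
    ∀ ω, 0 < F.p ω → ∀ j k, j ≤ k →
      |F.x ω k - eval (bt F ω) (G (F.Z ω) j k)| ≤ 1 / 2 ^ ⌊(s j - e) * J⌋₊ ∧
      ∀ b : Option (Fin n) → ℝ, (∀ o, |b o - bt F ω o| ≤ 1 / 2 ^ ⌊min (rad s 0 j + e) 1 * J⌋₊) →
        ∀ o, |eval b (pderiv o (G (F.Z ω) j k))| ≤ 2 ^ ⌊e * J⌋₊

/-- **Absent labels.** A label of class `K` of the coordinate `j` over the first `j` coordinates,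
for windows of length `2 ^ (-d J)`, with precision `2 ^ (-(s j + h) J)` and with gradient at most
`2 ^ (d J)` on the balls of radius `2 ^ (-(s (j - 1) + d) J)`. -/
def BtrX {n : ℕ} (s : Fin n → ℝ) (d h : ℝ) (K : ℕ) : Stat n := fun J F A =>
  ∃ j : Fin n, s j + h ≤ 1 ∧ Lb F (Finset.Iio j) j K ⌊d * J⌋₊ J ⌊d * J⌋₊
    ⌊(rad s 0 j + d) * J⌋₊ ⌊(s j + h) * J⌋₊ A

theorem BtrX.hered {n : ℕ} (s : Fin n → ℝ) (d h : ℝ) (K : ℕ) (J : ℕ) (F : Fam n J) :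
    Hered (BtrX s d h K J F) := by
  rintro A B hB ⟨j, h1, h2⟩
  exact ⟨j, h1, Lb.hered F _ _ _ _ _ _ _ _ A B hB h2⟩

/-- **The exactness theorem with exact numbers, for classes.** -/
def FTX (n : ℕ) : Prop :=
  ∀ ρ al : ℝ, 0 < ρ → 0 < al → ∀ g₀ : ℝ → ℝ, (∀ ε : ℝ, 0 < ε → 0 < g₀ ε) →
    ∀ (s : Fin n → ℝ) (d : ℕ → ℝ), NumX s d → ∃ e : ℝ, 0 < e ∧
    ∀ (K₀ : ℕ) (N : ℚ → ℚ → ℝ), ActM N al g₀ → ∀ S : PCl n, S.Ne →
    (∀ (τ : ℝ) (J : ℕ) (F : Fam n J) (A : F.Ω → Prop), S.St τ J F A → F.Tr ∧ F.Tm (τ * J) ∧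
      F.Rb (τ * J) ∧ Real.exp (-(τ * J)) ≤ Pe F.p A ∧ Gd F ∧ GraX K₀ e s J F ∧ Zc F) →
    (∀ l K : ℕ, e ≤ 1 / ((l : ℝ) + 1) →
      Bas S (fun J F A => ¬ BtrX s (d l) (1 / ((l : ℝ) + 1)) K J F A)) →
    (∀ k : Fin n, (k : ℕ) = 0 → ActB N S k) →
    ¬ Bas S (fun J F A => CH (Pool.Agent.H49.Ent.cond F.p A True) (F.X J) F.W ≤
      ((∑ j, (1 - s j)) - ρ) * Real.log 2 * J)

/-- The list of the bad properties of a family with side information: a velocity which is not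
active, or a better label. -/
def FBadX {n : ℕ} (N : ℚ → ℚ → ℝ) (s : Fin n → ℝ) (d : ℕ → ℝ) (e : ℝ) (i : ℕ) : Stat n :=
  fun J G B =>
  (∃ (q q' : ℚ) (k : Fin n), (k : ℕ) = 0 ∧ Encodable.encode (q, q') ≤ i ∧ 0 ≤ q ∧ q ≤ q' ∧
    q' ≤ 1 ∧ ActF N q q' (1 / ((i : ℝ) + 1)) k J G B) ∨
  ∃ l ≤ i, e ≤ 1 / ((l : ℝ) + 1) ∧ BtrX s (d l) (1 / ((l : ℝ) + 1)) i J G B

/-- **The exactness theorem with exact numbers, for a family with side information.** -/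
def FZX (n : ℕ) : Prop :=
  ∀ ρ al : ℝ, 0 < ρ → 0 < al → ∀ g₀ : ℝ → ℝ, (∀ ε : ℝ, 0 < ε → 0 < g₀ ε) →
    ∀ (s : Fin n → ℝ) (d : ℕ → ℝ), NumX s d → ∃ e : ℝ, 0 < e ∧
    ∀ (K₀ : ℕ) (N : ℚ → ℚ → ℝ), ActM N al g₀ → ∀ ψ : ℕ → ℝ, (∀ i, 0 < ψ i) →
    ∃ η : ℝ, 0 < η ∧ ∃ M J₁ : ℕ, ∀ J ≥ J₁,
    ∀ G : Fam n J, G.Tm (η * J) → Gd G → GraX K₀ e s J G →
    (∃ i ≤ M, ∃ B : G.Ω → Prop, Real.exp (-(3 * ψ i * J)) ≤ Pe G.p B ∧
      FBadX N s d e i J G B) ∨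
    ((∑ j, (1 - s j)) - ρ) * Real.log 2 * J ≤ CH G.p (G.X J) G.W

/-! ### The list -/

theorem GraX.res {K : ℕ} {e : ℝ} {s : Fin n → ℝ} {F : Fam n J} (h : GraX K e s J F)
    {κ : Type} (c : F.Ω → κ) (v : κ) (hl : IsLaw (cond F.p c v)) :
    GraX K e s J (F.res c v hl) := by
  obtain ⟨G, h1, h2⟩ := h
  refine ⟨G, h1, fun ω hω => h2 ω ?_⟩
  exact ((cond_pos_iff F.isLaw.nonneg c v ω).1 hω).1

/-- A better label of the coordinate `j`, for the number `l` of the list. -/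
def BtrL (s : Fin n → ℝ) (d : ℕ → ℝ) (e : ℝ) (l K : ℕ) (j : Fin n) : Stat n := fun J F A =>
  (e ≤ 1 / ((l : ℝ) + 1) ∧ s j + 1 / ((l : ℝ) + 1) ≤ 1) ∧
    Lb F (Finset.Iio j) j K ⌊d l * J⌋₊ J ⌊d l * J⌋₊ ⌊(rad s 0 j + d l) * J⌋₊
      ⌊(s j + 1 / ((l : ℝ) + 1)) * J⌋₊ A

/-- The list of the bad properties. -/
def fxL (n : ℕ) (N : ℚ → ℚ → ℝ) (s : Fin n → ℝ) (d : ℕ → ℝ) (e : ℝ) (i J : ℕ) :
    (Fin (i + 1) × Fin n) ⊕ (Fin (i + 1) × Fin n) → ∀ F : Fam n J, (F.Ω → Prop) → Prop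
  | Sum.inl (l, j) => fun F A => BtrL s d e l i j J F A
  | Sum.inr (c, k) => fun F A => ActC N (1 / ((i : ℝ) + 1)) c k J F A

theorem fxL_inv (N : ℚ → ℚ → ℝ) (s : Fin n → ℝ) (d : ℕ → ℝ) (e : ℝ) (i J : ℕ)
    (a : (Fin (i + 1) × Fin n) ⊕ (Fin (i + 1) × Fin n)) : Inv0 (fxL n N s d e i J a) := by
  rcases a with ⟨l, j⟩ | ⟨c, k⟩
  · exact inv0_const (inv0_of_hered fun F => Lb.hered F _ _ _ _ _ _ _ _)
  · exact inv0_const (inv0_actF N _ _ _ k)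

theorem fxL_glu (N : ℚ → ℚ → ℝ) (s : Fin n → ℝ) (d : ℕ → ℝ) (e : ℝ) (i J : ℕ)
    (a : (Fin (i + 1) × Fin n) ⊕ (Fin (i + 1) × Fin n)) : GluP (fxL n N s d e i J a) := by
  rcases a with ⟨l, j⟩ | ⟨c, k⟩
  · exact glu_const (Lb.glu _ _ _ _ _ _ _ _).pos
  · exact glu_const (glu_actF N _ _ _ k)

/-- The bad properties in a part of the sample space. -/
theorem fxL_part (N : ℚ → ℚ → ℝ) (s : Fin n → ℝ) (d : ℕ → ℝ) (e : ℝ) (i J : ℕ)
    (a : (Fin (i + 1) × Fin n) ⊕ (Fin (i + 1) × Fin n)) (G : Fam n J) (E : G.Ω → Prop)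
    (h : IsLaw (cond G.p E True)) (B : G.Ω → Prop)
    (hR : fxL n N s d e i J a (G.res E True h) B) :
    fxL n N s d e i J a G (fun ω => E ω ∧ B ω) := by
  rcases a with ⟨l, j⟩ | ⟨c, k⟩
  · obtain ⟨h1, V, z, z', g, hg⟩ := hR
    exact ⟨h1, V, z, z', g, hg.deg, hg.dep, fun ω hω => hg.cls ω hω.2,
      fun ω hω => hg.pos ω hω.2, fun ω hω => hg.vel ω hω.2, fun ω hω => hg.lip ω hω.2⟩
  · change ActC N (1 / ((i : ℝ) + 1)) c k J G (fun ω => E ω ∧ B ω)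
    change ActC N (1 / ((i : ℝ) + 1)) c k J (G.res E True h) B at hR
    refine ⟨hR.1, ?_⟩
    have h2 := hR.2
    unfold ActF at h2 ⊢
    have h3 := cond_part_eq h B
    rw [← h3]
    exact h2

theorem fBadX_of_fxL {N : ℚ → ℚ → ℝ} {s : Fin n → ℝ} {d : ℕ → ℝ} {e : ℝ} {i : ℕ}
    {a : (Fin (i + 1) × Fin n) ⊕ (Fin (i + 1) × Fin n)} {F : Fam n J} {B : F.Ω → Prop}
    (h : fxL n N s d e i J a F B) : FBadX N s d e i J F B := by
  rcases a with ⟨l, j⟩ | ⟨c, k⟩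
  · exact Or.inr ⟨l, Nat.lt_succ_iff.1 l.2, h.1.1, j, h.1.2, h.2⟩
  · obtain ⟨⟨h1, h2, h3⟩, h4⟩ := h
    refine Or.inl ⟨(dqc c).1, (dqc c).2, k, h1, ?_, h3.1, h3.2.1, h3.2.2, h4⟩
    have h5 := c.2
    change Encodable.encode (dqc c) ≤ i
    omega

theorem fxL_of_btr {N : ℚ → ℚ → ℝ} {s : Fin n → ℝ} {d : ℕ → ℝ} {e : ℝ} {i K l : ℕ}
    (hl : l ≤ i) (he : e ≤ 1 / ((l : ℝ) + 1)) (hK : K ≤ i) {F : Fam n J} {B : F.Ω → Prop}
    (hb : BtrX s (d l) (1 / ((l : ℝ) + 1)) K J F B) : ∃ a, fxL n N s d e i J a F B := by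
  obtain ⟨j, h1, V, z, z', g, h2⟩ := hb
  exact ⟨Sum.inl (⟨l, by omega⟩, j), ⟨he, h1⟩, V, z, z', g,
    h2.mono (Finset.Subset.refl _) hK le_rfl le_rfl le_rfl⟩

theorem fxL_of_act {N : ℚ → ℚ → ℝ} {s : Fin n → ℝ} {d : ℕ → ℝ} {e h : ℝ} {i : ℕ} {q q' : ℚ}
    (hi : 1 / ((i : ℝ) + 1) ≤ h) (hq : Encodable.encode (q, q') ≤ i) {k : Fin n}
    (hk : (k : ℕ) = 0) (h0 : 0 ≤ q) (h1 : q ≤ q') (h2 : q' ≤ 1) {F : Fam n J} {B : F.Ω → Prop}
    (hb : ActF N q q' h k J F B) : ∃ a, fxL n N s d e i J a F B := by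
  refine ⟨Sum.inr (⟨Encodable.encode (q, q'), by omega⟩, k), ?_⟩
  change ActC N (1 / ((i : ℝ) + 1)) (Encodable.encode (q, q')) k J F B
  unfold ActC
  rw [dqc_encode]
  refine ⟨⟨hk, rfl, h0, h1, h2⟩, ?_⟩
  unfold ActF at hb ⊢
  refine lt_of_lt_of_le hb ?_
  have hl2 : 0 ≤ Real.log 2 := (Real.log_pos one_lt_two).le
  exact mul_le_mul_of_nonneg_right (mul_le_mul_of_nonneg_right (by linarith) hl2)
    (Nat.cast_nonneg J)

/-- **From classes to families with side information**, for fixed numbers. -/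
theorem fzx_core {n : ℕ} {ρ e : ℝ} (hρ : 0 < ρ) {s : Fin n → ℝ} {d : ℕ → ℝ} {N : ℚ → ℚ → ℝ} {K₀ : ℕ}
    (hF : ∀ S : PCl n, S.Ne →
      (∀ (τ : ℝ) (J : ℕ) (F : Fam n J) (A : F.Ω → Prop), S.St τ J F A → F.Tr ∧ F.Tm (τ * J) ∧
        F.Rb (τ * J) ∧ Real.exp (-(τ * J)) ≤ Pe F.p A ∧ Gd F ∧ GraX K₀ e s J F ∧ Zc F) →
      (∀ l K : ℕ, e ≤ 1 / ((l : ℝ) + 1) →
        Bas S (fun J F A => ¬ BtrX s (d l) (1 / ((l : ℝ) + 1)) K J F A)) →
      (∀ k : Fin n, (k : ℕ) = 0 → ActB N S k) →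
      ¬ Bas S (fun J F A => CH (Pool.Agent.H49.Ent.cond F.p A True) (F.X J) F.W ≤
        ((∑ j, (1 - s j)) - ρ / 2) * Real.log 2 * J))
    (ψ : ℕ → ℝ) (hψ : ∀ i, 0 < ψ i) : ∃ η : ℝ, 0 < η ∧ ∃ M J₁ : ℕ, ∀ J ≥ J₁,
    ∀ G : Fam n J, G.Tm (η * J) → Gd G → GraX K₀ e s J G →
    (∃ i ≤ M, ∃ B : G.Ω → Prop, Real.exp (-(3 * ψ i * J)) ≤ Pe G.p B ∧
      FBadX N s d e i J G B) ∨
    ((∑ j, (1 - s j)) - ρ) * Real.log 2 * J ≤ CH G.p (G.X J) G.W := by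
  have hl2 : 0 < Real.log 2 := Real.log_pos one_lt_two
  obtain ⟨b', hb'⟩ : ∃ b', b' = ((∑ j, (1 - s j)) - ρ / 2) * Real.log 2 := ⟨_, rfl⟩
  obtain ⟨b, hb⟩ : ∃ b, b = b' - ρ / 4 * Real.log 2 := ⟨_, rfl⟩
  have hρl : 0 < ρ / 4 * Real.log 2 := by positivity
  by_cases hb0 : 0 ≤ b
  swap
  · push Not at hb0
    refine ⟨1, one_pos, 0, 0, fun J _ G _ _ _ => Or.inr ?_⟩
    have h1 : ((∑ j, (1 - s j)) - ρ) * Real.log 2 ≤ 0 := by
      have e1 : ((∑ j, (1 - s j)) - ρ) * Real.log 2 = b - ρ / 4 * Real.log 2 := by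
        rw [hb, hb']
        ring
      rw [e1]
      linarith
    exact (mul_nonpos_of_nonpos_of_nonneg h1 (Nat.cast_nonneg J)).trans
      (CH_nonneg G.isLaw.nonneg _ _)
  have hb1 : 0 < b' := by linarith
  have hcard : ∀ (i : ℕ) (e : ℝ), 0 < e → ∃ J₀ : ℕ, ∀ J ≥ J₀,
      (Fintype.card ((Fin (i + 1) × Fin n) ⊕ (Fin (i + 1) × Fin n)) : ℝ) ≤ Real.exp (e * J) := by
    intro i e he
    obtain ⟨J₀, hJ₀⟩ := exists_nat_ge
      ((Fintype.card ((Fin (i + 1) × Fin n) ⊕ (Fin (i + 1) × Fin n)) : ℝ) / e)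
    refine ⟨J₀, fun J hJ => ?_⟩
    have h1 : (Fintype.card ((Fin (i + 1) × Fin n) ⊕ (Fin (i + 1) × Fin n)) : ℝ) / e ≤ J :=
      hJ₀.trans (by exact_mod_cast hJ)
    rw [div_le_iff₀ he] at h1
    have h2 := Real.add_one_le_exp (e * J)
    linarith
  obtain ⟨η, hη, N₀, J₁, hmain⟩ := zcl_low (n := n)
    (ι := fun i _ => (Fin (i + 1) × Fin n) ⊕ (Fin (i + 1) × Fin n))
    (R := fxL n N s d e) (fun J F => Gd F ∧ GraX K₀ e s J F) hcard
    (fxL_inv N s d e) (fxL_glu N s d e) (fxL_part N s d e)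
    (fun J G hG => hG.1) (fun J G hG κ k v hl => ⟨hG.1, hG.2.res k v hl⟩)
    (y := fun x => x) hb0 (by
      intro S hS hbad
      have hne : ∀ i : ℕ, Bas S.toP (fun J F A => ¬ ∃ a, fxL n N s d e i J a F A) := by
        intro i
        obtain ⟨κ, hκ, hc⟩ := hbad i
        refine Bas.mono 0 hc fun J _ F A h1 => h1 A ?_
        have h2 : Real.exp (-(κ * J)) ≤ 1 := by
          rw [Real.exp_le_one_iff]
          have : 0 ≤ κ * (J : ℝ) := by positivity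
          linarith
        calc _ ≤ 1 * Pe F.p A := mul_le_mul_of_nonneg_right h2 (Pe_nonneg F.isLaw A)
          _ = Pe F.p A := one_mul _
      -- the class of the events with few positions
      obtain ⟨S', hS'⟩ : ∃ S' : PCl n, S' = cntCl S b' := ⟨_, rfl⟩
      have hsub : ∀ (τ : ℝ) (J : ℕ) (F : Fam n J) (A : F.Ω → Prop),
          S'.St τ J F A → S.toP.St τ J F A := by
        intro τ J F A hA
        rw [hS'] at hA
        exact hA.1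
      have hno : ¬ S'.Ne := by
        intro hNe
        refine hF S' hNe ?_ ?_ ?_ ?_
        · intro τ J F A hA
          have h1 : S.St τ F A := hsub τ J F A hA
          exact ⟨S.tr h1.1, S.tm h1.1, S.rb h1.1, h1.2, (hS τ J F h1.1).1.1, (hS τ J F h1.1).1.2,
            (hS τ J F h1.1).2⟩
        · intro l K hl
          refine Bas.sub hsub (Bas.mono 0 (hne (max l K)) fun J _ F A h1 h2 => h1 ?_)
          exact fxL_of_btr (le_max_left _ _) hl (le_max_right _ _) h2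
        · intro k hk q q' h0 h1 h2 h hh
          obtain ⟨i, hi⟩ := exists_inv hh
          obtain ⟨c, hc⟩ : ∃ c, c = Encodable.encode (q, q') := ⟨_, rfl⟩
          have hii : 1 / (((max i c : ℕ) : ℝ) + 1) ≤ h := by
            refine le_trans ?_ hi
            refine one_div_le_one_div_of_le (by positivity) ?_
            have : (i : ℝ) ≤ ((max i c : ℕ) : ℝ) := by exact_mod_cast le_max_left _ _
            linarith
          refine Bas.sub hsub (Bas.mono 0 (hne (max i c)) fun J _ F A h3 => ?_)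
          by_contra hcon
          push Not at hcon
          exact h3 (fxL_of_act hii (by rw [← hc]; exact le_max_right _ _) hk h0 h1 h2 hcon)
        · refine ⟨1, one_pos, 0, fun J _ F A hA => ?_⟩
          rw [hS'] at hA
          have hA0 : 0 < Pe F.p A := lt_of_lt_of_le (Real.exp_pos _) hA.1.2
          have h1 := ch_le_cntC F.isLaw (F.X J) F.W
            (Real.one_le_exp (mul_nonneg hb1.le (Nat.cast_nonneg J))) hA0 hA.2
          rw [Real.log_exp, hb'] at h1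
          exact h1
      have hno' : Bas S.toP (fun J F A => ¬ CntC F.p (F.X J) F.W (Real.exp (b' * J)) A) := by
        unfold PCl.Ne at hno
        push Not at hno
        obtain ⟨τ, hτ, J₂, h1⟩ := hno
        refine ⟨τ, hτ, J₂, fun J hJ F A hA hc => h1 J hJ F A ?_⟩
        rw [hS']
        exact ⟨hA, hc⟩
      have h5 := ch_ge_of (S := S.toP) (fun τ J F A hA => lt_of_lt_of_le (Real.exp_pos _) hA.2)
        (b := b) (b' := b') (by linarith) hb1 (fun J F => F.X J) (fun J F => F.W) hno'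
      exact clg_of_clp h5.clp)
    ψ hψ (ρ / 4 * Real.log 2) hρl
  refine ⟨η, hη, N₀, J₁, fun J hJ G hTm hGd hGra => ?_⟩
  rcases hmain J hJ G hTm ⟨hGd, hGra⟩ with ⟨i, hi, B, hP, a, ha⟩ | h1
  · exact Or.inl ⟨i, hi, B, hP, fBadX_of_fxL ha⟩
  · right
    refine le_trans (le_of_eq ?_) h1
    rw [hb, hb']
    ring

/-- **The exactness theorem for families with side information.** -/
theorem fzx_of {n : ℕ} (hF : FTX n) : FZX n := by
  intro ρ al hρ hal g₀ hg₀ s d hsd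
  obtain ⟨e, he, h⟩ := hF (ρ / 2) al (half_pos hρ) hal g₀ hg₀ s d hsd
  refine ⟨e, he, fun K₀ N hN ψ hψ => ?_⟩
  exact fzx_core hρ (fun S hS h1 h2 h3 => h K₀ N hN S hS h1 h2 h3) ψ hψ

end Pool.GEN
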