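import Pool.Agent.H1.GEN.LeafZ

/-!
# Leaves in a family with side information, for any kind of label

`leafZ_gen`: the transfer from classes of families to a single family with side information, for
any property `R i J a` of events which is hereditary and which can be glued over the sections of
the side information, with subexponentially many values of `a`.

`PLab`: labels which are functions of the point and of the line in the window; they can be glued.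
-/

set_option autoImplicit false

namespace Pool.GEN

open Finset Real MvPolynomial
open Pool.Agent.H49.Ent Pool.Agent.H32.Dense Pool.STK Pool.KA Pool.KSAT Pool.K2S Pool.PB Pool.S6C
open Pool.ZCL

variable {n J : ℕ}

/-- The property can be glued over the sections of the side information. -/
def Glu {n J : ℕ} (R : ∀ F : Fam n J, (F.Ω → Prop) → Prop) : Prop :=
  ∀ (G : Fam n J) (κ : Type) (c : G.Ω → κ) (B : G.Ω → Prop), Sel G c B →
    (∀ ω, 0 < G.p ω → B ω → ∀ hl : IsLaw (cond G.p c (c ω)),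
      R (G.res c (c ω) hl) (fun ω' => B ω' ∧ c ω' = c ω)) →
    R G (fun ω => B ω ∧ G.p ω ≠ 0)

/-- The list of the bad properties, for a general kind of label. -/
def lgBad (n : ℕ) (c : ℝ) (ι : ℕ → ℕ → Type)
    (R : ∀ (i J : ℕ), ι i J → ∀ F : Fam n J, (F.Ω → Prop) → Prop) (i : ℕ) : Stat n :=
  fun J F B =>
  BadS n 0 (1 / ((i : ℝ) + 1)) J F B ∨
  (∃ P : ℕ, P ≤ J ∧ (n - c) * Real.log 2 * ((J : ℝ) - P) + 1 / ((i : ℝ) + 1) * J <
    CH (Pool.Agent.H49.Ent.cond F.p B True) (F.X J) (fun ω => (F.X P ω, F.W ω))) ∨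
  ∃ a : ι i J, R i J a F B

section

variable {c : ℝ} {ι : ℕ → ℕ → Type}
  {R : ∀ (i J : ℕ), ι i J → ∀ F : Fam n J, (F.Ω → Prop) → Prop}

theorem lgBad_inv (hher : ∀ (i J : ℕ) (a : ι i J) (F : Fam n J), Hered (R i J a F))
    (i J : ℕ) (F : Fam n J) (A : F.Ω → Prop)
    (h : lgBad n c ι R i J F A) : lgBad n c ι R i J F (fun ω => A ω ∧ F.p ω ≠ 0) := by
  rcases h with h | ⟨P, h1, h3⟩ | ⟨a, h1⟩
  · exact Or.inl (PlU.hered _ _ _ _ A _ (fun ω hω => hω.1) h)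
  · refine Or.inr (Or.inl ⟨P, h1, ?_⟩)
    rw [cond_supp]
    exact h3
  · exact Or.inr (Or.inr ⟨a, hher i J a F A _ (fun ω hω => hω.1) h1⟩)

/-- The bad properties of the sections, glued. -/
theorem lg_glue [∀ i J, Fintype (ι i J)] (hgl : ∀ (i J : ℕ) (a : ι i J), Glu (R i J a)) {i : ℕ}
    {G : Fam n J} {κ : Type} {k : G.Ω → κ}
    {B : G.Ω → Prop} (hS : Sel G k B) (hB : 0 < Pe G.p B)
    (h : ∀ ω, 0 < G.p ω → B ω → ∀ hl : IsLaw (cond G.p k (k ω)),
      lgBad n c ι R i J (G.res k (k ω) hl) (fun ω' => B ω' ∧ k ω' = k ω)) :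
    ∃ B' : G.Ω → Prop, Pe G.p B ≤ (Fintype.card (ι i J) + J + 2) * Pe G.p B' ∧
      (PlU 0 (1 / 2 ^ ⌊1 / ((i : ℝ) + 1) * J⌋₊) (Fam.pt G) G.d B' ∨
      (∃ P ≤ J, (n - c) * Real.log 2 * ((J : ℝ) - P) + 1 / ((i : ℝ) + 1) * J <
        CH (Pool.Agent.H49.Ent.cond G.p B' True) (G.X J) (fun ω => (G.X P ω, G.W ω))) ∨
      ∃ a : ι i J, R i J a G B') := by
  classical
  have hp := G.isLaw
  obtain ⟨a, B', hB', hP, hsec⟩ := sec_pigeon (ι := Unit ⊕ (Fin (J + 1) ⊕ ι i J)) hp k B hB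
    (fun a v E => ∀ hl : IsLaw (cond G.p k v), match a with
      | Sum.inl _ => BadS n 0 (1 / ((i : ℝ) + 1)) J (G.res k v hl) E
      | Sum.inr (Sum.inl P) =>
        (n - c) * Real.log 2 * ((J : ℝ) - (P : ℕ)) + 1 / ((i : ℝ) + 1) * J <
        CH (Pool.Agent.H49.Ent.cond (G.res k v hl).p E True) ((G.res k v hl).X J)
          (fun ω => ((G.res k v hl).X (P : ℕ) ω, (G.res k v hl).W ω))
      | Sum.inr (Sum.inr a) => R i J a (G.res k v hl) E)
    (by
      intro ω hω hBω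
      rcases h ω hω hBω (isLaw_sec hp k hω) with h1 | ⟨P, h1, h3⟩ | ⟨a, h4⟩
      · exact ⟨Sum.inl (), fun hl => h1⟩
      · exact ⟨Sum.inr (Sum.inl ⟨P, by omega⟩), fun hl => h3⟩
      · exact ⟨Sum.inr (Sum.inr a), fun hl => h4⟩)
  have hcard : ((Fintype.card (Unit ⊕ (Fin (J + 1) ⊕ ι i J)) : ℕ) : ℝ) =
      Fintype.card (ι i J) + J + 2 := by
    rw [Fintype.card_sum, Fintype.card_sum, Fintype.card_unit, Fintype.card_fin]
    push_cast
    ring
  have hB0 : 0 < Pe G.p B' := by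
    by_contra h1
    push Not at h1
    have h2 : ((Fintype.card (Unit ⊕ (Fin (J + 1) ⊕ ι i J)) : ℕ) : ℝ) * Pe G.p B' ≤ 0 :=
      mul_nonpos_of_nonneg_of_nonpos (Nat.cast_nonneg _) h1
    linarith
  have hS' := hS.sub hB'
  have hP' : Pe G.p B ≤ Fintype.card (Unit ⊕ (Fin (J + 1) ⊕ ι i J)) *
      Pe G.p (fun ω => B' ω ∧ G.p ω ≠ 0) := by
    rw [Pe_supp]
    exact hP
  rw [hcard] at hP hP'
  rcases a with u | P | a
  · exact ⟨fun ω => B' ω ∧ G.p ω ≠ 0, hP', Or.inl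
      (plu_glue hS' fun ω hω hBω hl => hsec ω hω hBω hl)⟩
  · refine ⟨B', hP, Or.inr (Or.inl ⟨P, by have := P.2; omega,
      ch_glue hp _ _ k B' hB0 ?_ fun ω hω hBω => hsec ω hω hBω (isLaw_sec hp k hω)⟩)⟩
    intro ω ω' _ _ h5 h6 h7
    exact hS'.2 ω ω' h5 h6 (Prod.ext_iff.1 (Prod.ext_iff.1 h7).2).2
  · exact ⟨fun ω => B' ω ∧ G.p ω ≠ 0, hP', Or.inr (Or.inr ⟨a, hgl i J a G κ k B' hS'
      fun ω hω hBω hl => hsec ω hω hBω hl⟩)⟩

/-- **Leaves in a family with side information**, for any kind of label. -/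
theorem leafZ_gen [∀ i J, Fintype (ι i J)] (Good : ∀ J : ℕ, Fam n J → Prop)
    (hcard : ∀ (i : ℕ) (e : ℝ), 0 < e → ∃ J₀ : ℕ, ∀ J ≥ J₀,
      (Fintype.card (ι i J) : ℝ) ≤ Real.exp (e * J))
    (hher : ∀ (i J : ℕ) (a : ι i J) (F : Fam n J), Hered (R i J a F))
    (hgl : ∀ (i J : ℕ) (a : ι i J), Glu (R i J a))
    (hGood : ∀ (J : ℕ) (G : Fam n J), Good J G → ∀ (κ : Type) (k : G.Ω → κ) (v : κ)
      (h : IsLaw (cond G.p k v)), (∀ ω ω', k ω = k ω' → G.Z ω = G.Z ω') → Good J (G.res k v h))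
    (hL : ∀ S : FCl n, S.toP.Ne → (∀ (τ : ℝ) (J : ℕ) (F : Fam n J), S.T τ J F → Good J F) →
      SPS S 0 → TLA S c → ¬ ∀ i : ℕ, Clg S (fun J F A => ¬ ∃ a : ι i J, R i J a F A)) :
    ∀ B₀ : ℝ, 0 < B₀ → ∀ ψ : ℕ → ℝ, (∀ i, 0 < ψ i) →
    ∃ η : ℝ, 0 < η ∧ ∃ N J₁ : ℕ, ∀ J ≥ J₁, ∀ G : Fam n J, G.Tm (η * J) →
    (∀ z, 0 < law G.p G.Z z → H (Pool.Agent.H49.Ent.cond G.p G.Z z) G.l ≤ B₀ * J) → Good J G →
    ∃ i ≤ N, ∃ B : G.Ω → Prop, Real.exp (-(3 * ψ i * J)) ≤ Pe G.p B ∧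
      (PlU 0 (1 / 2 ^ ⌊1 / ((i : ℝ) + 1) * J⌋₊) (Fam.pt G) G.d B ∨
      (∃ P ≤ J, (n - c) * Real.log 2 * ((J : ℝ) - P) + 1 / ((i : ℝ) + 1) * J <
        CH (Pool.Agent.H49.Ent.cond G.p B True) (G.X J) (fun ω => (G.X P ω, G.W ω))) ∨
      ∃ a : ι i J, R i J a G B) := by
  intro B₀ hB₀ ψ hψ
  have hbs := fun i => zc_bad_self (Good := Good) (Bad := lgBad n c ι R) hψ i
  have hNe : ¬ (zc n Good (lgBad n c ι R) ψ).toP.Ne := by
    intro hNe
    refine hL _ hNe (fun τ J F h => h.2.2.2.1) ?_ ?_ fun i => Clg.mono (J₂ := 0) (hbs i)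
      fun _ _ _ _ h h1 => h (Or.inr (Or.inr h1))
    · intro g hg
      obtain ⟨i, hi⟩ := exists_inv hg
      refine ⟨ψ i / 2, half_pos (hψ i), Clg.mono (J₂ := 0) (zc_bad hψ i)
        fun J _ F A h B _ hPB hBad => h B hPB (Or.inl ?_)⟩
      exact hBad.mono (inv_mono (Nat.floor_le_floor
        (mul_le_mul_of_nonneg_right hi (Nat.cast_nonneg J))))
    · intro η hη
      obtain ⟨i, hi⟩ := exists_inv hη
      refine Clg.mono (J₂ := 0) (hbs i) fun J _ F A h P hP => ?_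
      by_contra hcon
      push Not at hcon
      refine h (Or.inr (Or.inl ⟨P, hP, lt_of_le_of_lt ?_ hcon⟩))
      have h1 := mul_le_mul_of_nonneg_right hi (Nat.cast_nonneg (α := ℝ) J)
      linarith
  obtain ⟨η, hη, N, J₁, hcore⟩ := zcl_core (Good := Good) (Bad := lgBad n c ι R) hψ
    (fun i J F A h => lgBad_inv hher i J F A h) (clg_of_not_ne hNe) hB₀ one_pos
  obtain ⟨J₂, hJ₂⟩ : ∃ J₂ : ℕ → ℕ, ∀ i, ∀ J ≥ J₂ i,
      (Fintype.card (ι i J) + J + 2 : ℝ) ≤ Real.exp (ψ i * J) := by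
    have key : ∀ i, ∃ J₀ : ℕ, ∀ J ≥ J₀,
        (Fintype.card (ι i J) + J + 2 : ℝ) ≤ Real.exp (ψ i * J) := by
      intro i
      obtain ⟨J₃, h3⟩ := hcard i (ψ i / 2) (half_pos (hψ i))
      obtain ⟨J₄, h4⟩ := quad_exp (C := 1) (half_pos (half_pos (hψ i)))
      obtain ⟨J₅, h5⟩ := exists_nat_ge (4 * Real.log 3 / ψ i)
      refine ⟨max (max J₃ J₄) (max J₅ 2), fun J hJ => ?_⟩
      have hJ3 : J₃ ≤ J := (le_max_left _ _).trans ((le_max_left _ _).trans hJ)
      have hJ4 : J₄ ≤ J := (le_max_right _ _).trans ((le_max_left _ _).trans hJ)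
      have hJ5 : J₅ ≤ J := (le_max_left _ _).trans ((le_max_right _ _).trans hJ)
      have hJ2 : 2 ≤ J := (le_max_right _ _).trans ((le_max_right _ _).trans hJ)
      have hJr : (2 : ℝ) ≤ J := by exact_mod_cast hJ2
      have a1 := h3 J hJ3
      have a2 := h4 J hJ4
      have hψi := hψ i
      have a3 : Real.log 3 ≤ ψ i / 4 * J := by
        have h6 : 4 * Real.log 3 / ψ i ≤ J := h5.trans (by exact_mod_cast hJ5)
        rw [div_le_iff₀ hψi] at h6
        linarith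
      obtain ⟨E, hE⟩ : ∃ E, E = Real.exp (ψ i / 2 / 2 * J) := ⟨_, rfl⟩
      have e3 : (3 : ℝ) ≤ E := by
        rw [hE, ← Real.exp_log (show (0 : ℝ) < 3 by norm_num)]
        refine Real.exp_le_exp.2 ?_
        linarith
      have e1 : Real.exp (ψ i / 2 * J) = E * E := by
        rw [hE, ← Real.exp_add]
        congr 1
        ring
      have e2 : Real.exp (ψ i * J) = E * E * (E * E) := by
        rw [hE, ← Real.exp_add, ← Real.exp_add]
        congr 1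
        ring
      rw [e1] at a1
      rw [one_mul, ← hE] at a2
      rw [e2]
      have b1 : (J : ℝ) + 2 ≤ J ^ 2 := by
        have : (J : ℝ) * 2 ≤ J * J := mul_le_mul_of_nonneg_left hJr (by linarith)
        rw [sq]
        linarith
      have hE0 : 0 < E := by linarith
      have b2 : E * E + E ≤ E * E * (E * E) := by
        have c1 : 3 * E ≤ E * E := mul_le_mul_of_nonneg_right e3 hE0.le
        have c2 : (3 * 3 : ℝ) ≤ E * E := mul_le_mul e3 e3 (by norm_num) hE0.le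
        have c3 : 9 * (E * E) ≤ E * E * (E * E) := by
          have := mul_le_mul_of_nonneg_right c2 (mul_pos hE0 hE0).le
          linarith
        linarith
      linarith
    choose J₂ hJ₂ using key
    exact ⟨J₂, hJ₂⟩
  refine ⟨η, hη, N, max J₁ (∑ i ∈ range (N + 1), J₂ i), fun J hJ G hTm hl hGd => ?_⟩
  have hJ1 : J₁ ≤ J := (le_max_left _ _).trans hJ
  have hp := G.isLaw
  by_contra hcon
  obtain ⟨κ, k, B, -, hPB, hsec⟩ := hcore J hJ1 G hTm hl
    (fun κ k v h hk => hGood J G hGd κ k v h hk) (by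
    intro i hi κ k B hSel hPB hbad
    have hB0 : 0 < Pe G.p B := lt_of_lt_of_le (Real.exp_pos _) hPB
    obtain ⟨B', h1, h2⟩ := lg_glue hgl hSel hB0 hbad
    refine hcon ⟨i, hi, B', ?_, h2⟩
    have hJi : J₂ i ≤ J := (Finset.single_le_sum (f := J₂) (fun _ _ => Nat.zero_le _)
      (Finset.mem_range.2 (by omega))).trans ((le_max_right _ _).trans hJ)
    have h3 := hJ₂ i J hJi
    have h4 : Real.exp (-(2 * ψ i * J)) ≤ Real.exp (ψ i * J) * Pe G.p B' :=
      hPB.trans (h1.trans (mul_le_mul_of_nonneg_right h3 (Pe_nonneg hp B')))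
    have h5 : Real.exp (-(3 * ψ i * J)) =
        Real.exp (-(ψ i * J)) * Real.exp (-(2 * ψ i * J)) := by
      rw [← Real.exp_add]
      congr 1
      ring
    rw [h5]
    calc _ ≤ Real.exp (-(ψ i * J)) * (Real.exp (ψ i * J) * Pe G.p B') :=
          mul_le_mul_of_nonneg_left h4 (Real.exp_pos _).le
      _ = Pe G.p B' := by
          rw [← mul_assoc, ← Real.exp_add]
          have : -(ψ i * (J : ℝ)) + ψ i * J = 0 := by ring
          rw [this, Real.exp_zero, one_mul])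
  obtain ⟨ω, h1, h2⟩ := exists_pos (lt_of_lt_of_le (Real.exp_pos _) hPB)
  exact hsec ω h1 h2 (isLaw_sec hp k h1)

end

/-! ### Labels with values in a type -/

/-- A label which is a function of the point of resolution `r` and of the line in the window; the
data `g` of the label satisfy `C`, and they fit the line and the time. -/
def PLab (F : Fam n J) (r w : ℕ) {Γ : Type} (C : Γ → Prop)
    (Ψ : (Fin n → ℝ) → (Fin n → ℝ) → ℕ → Γ → Prop) (A : F.Ω → Prop) : Prop :=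
  ∃ (V : Type) (z : PtT F → V) (z' : LnT F → V) (g : V → Γ), (∀ v, C (g v)) ∧
    ∀ ω, A ω → z (ptr F r ω) = z' (slam F w ω) ∧
      Ψ (F.u ω) (F.d ω) (F.T ω) (g (z' (slam F w ω)))

theorem PLab.hered (F : Fam n J) (r w : ℕ) {Γ : Type} (C : Γ → Prop)
    (Ψ : (Fin n → ℝ) → (Fin n → ℝ) → ℕ → Γ → Prop) : Hered (PLab F r w C Ψ) := by
  rintro A B hB ⟨V, z, z', g, h1, h2⟩
  exact ⟨V, z, z', g, h1, fun ω hω => h2 ω (hB ω hω)⟩

/-- The values of a label can be taken in a fixed type. -/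
theorem PLab.canon {F : Fam n J} {r w : ℕ} {Γ : Type} {C : Γ → Prop}
    {Ψ : (Fin n → ℝ) → (Fin n → ℝ) → ℕ → Γ → Prop} {A : F.Ω → Prop} (γ : Γ) (hγ : C γ)
    (h : PLab F r w C Ψ A) :
    ∃ (z : PtT F → Set (LnT F)) (z' : LnT F → Set (LnT F)) (g : Set (LnT F) → Γ),
      (∀ v, C (g v)) ∧ ∀ ω, A ω → z (ptr F r ω) = z' (slam F w ω) ∧
        Ψ (F.u ω) (F.d ω) (F.T ω) (g (z' (slam F w ω))) := by
  classical
  obtain ⟨V, z, z', g, h1, h2⟩ := h
  refine ⟨fun x => {s | z' s = z x}, fun s => {s' | z' s' = z' s},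
    fun E => if hE : ∃ s, s ∈ E then g (z' hE.choose) else γ, fun v => ?_, fun ω hω => ⟨?_, ?_⟩⟩
  · dsimp only
    split_ifs
    · exact h1 _
    · exact hγ
  · dsimp only
    rw [(h2 ω hω).1]
  · have hE : ∃ s, s ∈ {s' | z' s' = z' (slam F w ω)} := ⟨slam F w ω, rfl⟩
    have h3 : z' hE.choose = z' (slam F w ω) := hE.choose_spec
    simp only [dif_pos hE]
    rw [h3]
    exact (h2 ω hω).2

/-- These labels can be glued. -/
theorem PLab.glu (r w : ℕ) {Γ : Type} {C : Γ → Prop}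
    (Ψ : (Fin n → ℝ) → (Fin n → ℝ) → ℕ → Γ → Prop) {γ : Γ} (hγ : C γ) :
    Glu (fun F : Fam n J => PLab F r w C Ψ) := by
  classical
  intro G κ c B hS h
  have hp := G.isLaw
  have hne : Nonempty {x : (PtT G → Set (LnT G)) × (LnT G → Set (LnT G)) ×
      (Set (LnT G) → Γ) // ∀ v, C (x.2.2 v)} :=
    ⟨⟨(fun _ => ∅, fun _ => ∅, fun _ => γ), fun _ => hγ⟩⟩
  obtain ⟨f, hf⟩ := sel_choice hS
    (α := {x : (PtT G → Set (LnT G)) × (LnT G → Set (LnT G)) ×
      (Set (LnT G) → Γ) // ∀ v, C (x.2.2 v)})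
    (P := fun x ω => x.1.1 (ptr G r ω) = x.1.2.1 (slam G w ω) ∧
      Ψ (G.u ω) (G.d ω) (G.T ω) (x.1.2.2 (x.1.2.1 (slam G w ω)))) (by
      intro ω hω hB
      obtain ⟨z, z', g, h1, h2⟩ := (h ω hω hB (isLaw_sec hp c hω)).canon γ hγ
      exact ⟨⟨(z, z', g), h1⟩, fun ω' hω' => h2 ω' hω'⟩)
  refine ⟨G.ζ × Set (LnT G), fun x => (x.2.2, (f x.2.2).1.1 x),
    fun s => (s.2.1, (f s.2.1).1.2.1 s), fun v => (f v.1).1.2.2 v.2, fun v => (f v.1).2 v.2,
    fun ω hω => ?_⟩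
  obtain ⟨h1, h2⟩ := hf ω hω.1 hω.2
  exact ⟨Prod.ext rfl h1, h2⟩

/-- The time and the position. -/
noncomputable def btv (J : ℕ) (u d : Fin n → ℝ) (T : ℕ) : Option (Fin n) → ℝ
  | none => (T : ℝ) / 2 ^ J
  | some j => u j + (T : ℝ) / 2 ^ J * d j

/-- The velocity of the time and of the position. -/
noncomputable def bdv (d : Fin n → ℝ) : Option (Fin n) → ℝ
  | none => 1
  | some j => d j

theorem btv_eq (F : Fam n J) (ω : F.Ω) : btv J (F.u ω) (F.d ω) (F.T ω) = bt F ω := by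
  funext o
  cases o <;> rfl

theorem bdv_eq (F : Fam n J) (ω : F.Ω) : bdv (F.d ω) = bd F ω := by
  funext o
  cases o <;> rfl

/-- The conditions for the polynomials of a label. -/
def gC (n K : ℕ) (I : Finset (Fin n)) (g : Fin n → MvPolynomial (Option (Fin n)) ℝ) : Prop :=
  (∀ j, (g j).totalDegree ≤ K) ∧ (∀ j ∈ I, g j = X (some j)) ∧
    ∀ j, ∀ b b' : Option (Fin n) → ℝ, b none = b' none →
      (∀ k ∈ I, b (some k) = b' (some k)) → eval b (g j) = eval b' (g j)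

/-- The polynomials of a label fit the line and the time. -/
def gΨ (n J K w P : ℕ) (u d : Fin n → ℝ) (T : ℕ)
    (g : Fin n → MvPolynomial (Option (Fin n)) ℝ) : Prop :=
  (∀ j, |u j + (T : ℝ) / 2 ^ J * d j - eval (btv J u d T) (g j)| ≤ 1 / 2 ^ P) ∧
  (∀ j, |d j - ∑ o, bdv d o * eval (btv J u d T) (pderiv o (g j))| ≤ 2 ^ w / 2 ^ P) ∧
  ∀ b : Option (Fin n) → ℝ, (∀ o, |b o - btv J u d T o| ≤ 1 / 2 ^ w) → ∀ j o,
    |eval b (pderiv o (g j))| ≤ K

theorem glab_iff {F : Fam n J} {I : Finset (Fin n)} {K r w P : ℕ} {A : F.Ω → Prop} :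
    GLab F I K r w P A ↔ PLab F r w (gC n K I) (gΨ n J K w P) A := by
  constructor
  · rintro ⟨V, z, z', G, h⟩
    refine ⟨V, z, z', G, fun v => ⟨h.deg v, h.fre v, h.dep v⟩, fun ω hω => ⟨h.cls ω hω, ?_⟩⟩
    unfold gΨ
    rw [btv_eq, bdv_eq]
    exact ⟨h.pos ω hω, h.vel ω hω, h.lip ω hω⟩
  · rintro ⟨V, z, z', G, h1, h2⟩
    unfold gΨ at h2
    refine ⟨V, z, z', G, fun v => (h1 v).1, fun v => (h1 v).2.1, fun v => (h1 v).2.2,
      fun ω hω => (h2 ω hω).1, fun ω hω => ?_, fun ω hω => ?_, fun ω hω => ?_⟩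
    · have h3 := (h2 ω hω).2.1
      rw [btv_eq] at h3
      exact h3
    · have h3 := (h2 ω hω).2.2.1
      rw [btv_eq, bdv_eq] at h3
      exact h3
    · have h3 := (h2 ω hω).2.2.2
      rw [btv_eq] at h3
      exact h3

/-- Labels with free coordinates can be glued. -/
theorem GLab.glu (I : Finset (Fin n)) (K r w P : ℕ) (hK : 1 ≤ K) :
    Glu (fun F : Fam n J => GLab F I K r w P) := by
  intro G κ c B hS h
  refine glab_iff.2 (PLab.glu r w (gΨ n J K w P)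
    (γ := fun j => if j ∈ I then X (some j) else 0) ?_ G κ c B hS
    fun ω hω hB hl => glab_iff.1 (h ω hω hB hl))
  refine ⟨fun j => ?_, fun j hj => if_pos hj, fun j b b' h1 h2 => ?_⟩
  · dsimp only
    split_ifs
    · exact (MvPolynomial.totalDegree_X (R := ℝ) (some j)).le.trans hK
    · rw [totalDegree_zero]
      exact Nat.zero_le _
  · dsimp only
    split_ifs with hj
    · rw [eval_X, eval_X]
      exact h2 j hj
    · rw [map_zero, map_zero]

end Pool.GEN
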