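import Pool.Agent.H1.GEN.Low
import Pool.Agent.H1.GEN.Cnc
import Pool.Agent.H71.GEN.Nst

/-!
# The exactness theorem: from classes to families with side information

`ftz_core`: the exactness theorem for classes (in dimension `n`, with fixed numbers) gives the
exactness theorem for a family with side information of any size.
-/

set_option autoImplicit false

namespace Pool.GEN

open Finset Real MvPolynomial
open Pool.Agent.H49.Ent Pool.Agent.H32.Dense Pool.STK Pool.KA Pool.KSAT Pool.K2S Pool.PB Pool.S6C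
open Pool.ZCL

variable {n J : ℕ}

/-! ### Stability and gluing -/

theorem Gra.res {K : ℕ} {e : ℝ} {s u : Fin n → ℝ} {F : Fam n J} (h : Gra K e s u J F)
    {κ : Type} (c : F.Ω → κ) (v : κ) (hl : IsLaw (cond F.p c v)) :
    Gra K e s u J (F.res c v hl) := by
  obtain ⟨G, h1, h2⟩ := h
  refine ⟨G, h1, fun ω hω => h2 ω ?_⟩
  exact ((cond_pos_iff F.isLaw.nonneg c v ω).1 hω).1

/-- The conditions for the polynomial of a label of one coordinate. -/
def lC (n K : ℕ) (I : Finset (Fin n)) (g : MvPolynomial (Option (Fin n)) ℝ) : Prop :=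
  g.totalDegree ≤ K ∧ ∀ b b' : Option (Fin n) → ℝ, b none = b' none →
    (∀ i ∈ I, b (some i) = b' (some i)) → eval b g = eval b' g

/-- The polynomial of a label fits the line and the time. -/
def lΨ (n J e w ρ P : ℕ) (k : Fin n) (u d : Fin n → ℝ) (T : ℕ)
    (g : MvPolynomial (Option (Fin n)) ℝ) : Prop :=
  |u k + (T : ℝ) / 2 ^ J * d k - eval (btv J u d T) g| ≤ 1 / 2 ^ P ∧
  |d k - ∑ o, bdv d o * eval (btv J u d T) (pderiv o g)| ≤ 2 ^ w / 2 ^ P ∧
  ∀ b : Option (Fin n) → ℝ, (∀ o, |b o - btv J u d T o| ≤ 1 / 2 ^ ρ) → ∀ o,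
    |eval b (pderiv o g)| ≤ 2 ^ e

theorem lb_iff' {F : Fam n J} {I : Finset (Fin n)} {k : Fin n} {K e r w ρ P : ℕ}
    {A : F.Ω → Prop} :
    Lb F I k K e r w ρ P A ↔ PLab F r w (lC n K I) (lΨ n J e w ρ P k) A := by
  constructor
  · rintro ⟨V, z, z', G, h⟩
    refine ⟨V, z, z', G, fun v => ⟨h.deg v, h.dep v⟩, fun ω hω => ⟨h.cls ω hω, ?_⟩⟩
    unfold lΨ
    rw [btv_eq, bdv_eq]
    exact ⟨h.pos ω hω, h.vel ω hω, h.lip ω hω⟩
  · rintro ⟨V, z, z', G, h1, h2⟩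
    unfold lΨ at h2
    refine ⟨V, z, z', G, fun v => (h1 v).1, fun v => (h1 v).2,
      fun ω hω => (h2 ω hω).1, fun ω hω => ?_, fun ω hω => ?_, fun ω hω => ?_⟩
    · have h3 := (h2 ω hω).2.1
      rw [btv_eq] at h3
      exact h3
    · have h3 := (h2 ω hω).2.2.1
      rw [btv_eq, bdv_eq] at h3
      exact h3
    · have h3 := (h2 ω hω).2.2.2
      rw [btv_eq] at h3
      exact h3

/-- Labels of one coordinate can be glued. -/
theorem Lb.glu (I : Finset (Fin n)) (k : Fin n) (K e r w ρ P : ℕ) :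
    Glu (fun F : Fam n J => Lb F I k K e r w ρ P) := by
  intro G κ c B hS h
  refine lb_iff'.2 (PLab.glu r w (C := lC n K I) (lΨ n J e w ρ P k) (γ := 0) ?_ G κ c B hS
    fun ω hω hB hl => lb_iff'.1 (h ω hω hB hl))
  refine ⟨?_, fun b b' _ _ => ?_⟩
  · rw [totalDegree_zero]
    exact Nat.zero_le _
  · rw [map_zero, map_zero]

/-- **Strict upper bounds for conditional entropies, glued.** -/
theorem ch_glue_lt {Ω S T V : Type} [Fintype Ω] {p : Ω → ℝ} (hp : IsLaw p) (X : Ω → S) (W : Ω → T)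
    (c : Ω → V) (B : Ω → Prop) {b : ℝ} (hB : 0 < Pe p B)
    (hc : ∀ ω ω', 0 < p ω → 0 < p ω' → B ω → B ω' → W ω = W ω' → c ω = c ω')
    (h : ∀ ω, 0 < p ω → B ω →
      CH (cond (cond p c (c ω)) (fun ω' => B ω' ∧ c ω' = c ω) True) X W < b) :
    CH (cond p B True) X W < b := by
  classical
  obtain ⟨ω₀, hω₀, hB₀⟩ := exists_pos hB
  -- the largest of the finitely many values
  obtain ⟨I, hI⟩ : ∃ I : Finset Ω, I = univ.filter fun ω => 0 < p ω ∧ B ω := ⟨_, rfl⟩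
  have hne : I.Nonempty := ⟨ω₀, by
    rw [hI, mem_filter]
    exact ⟨mem_univ _, hω₀, hB₀⟩⟩
  obtain ⟨ω₁, h1, h2⟩ := exists_max_image I
    (fun ω => CH (cond (cond p c (c ω)) (fun ω' => B ω' ∧ c ω' = c ω) True) X W) hne
  have h3 : 0 < p ω₁ ∧ B ω₁ := by
    rw [hI, mem_filter] at h1
    exact h1.2
  refine lt_of_le_of_lt (ch_glue_le hp X W c B hB hc fun ω hω hBω => h2 ω ?_)
    (h ω₁ h3.1 h3.2)
  rw [hI, mem_filter]
  exact ⟨mem_univ _, hω, hBω⟩

/-- Inactivity can be glued. -/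
theorem glu_actF (N : ℚ → ℚ → ℝ) (q q' : ℚ) (h : ℝ) (k : Fin n) :
    GluP (fun (F : Fam n J) A => ActF N q q' h k J F A) := by
  intro G κ z B hS hB h1
  unfold ActF at h1 ⊢
  rw [cond_supp]
  refine ch_glue_lt G.isLaw _ _ z B hB ?_ fun ω hω hBω => h1 ω hω hBω (isLaw_sec G.isLaw z hω)
  intro ω ω' _ _ h5 h6 h7
  exact hS.2 ω ω' h5 h6 (Prod.ext_iff.1 (Prod.ext_iff.1 (Prod.ext_iff.1 h7).2).2).2

theorem inv0_actF (N : ℚ → ℚ → ℝ) (q q' : ℚ) (h : ℝ) (k : Fin n) :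
    Inv0 (fun (F : Fam n J) A => ActF N q q' h k J F A) := by
  intro F A h1
  unfold ActF at h1 ⊢
  rw [cond_supp]
  exact h1

/-- Events in a part of the sample space. -/
theorem cond_part_eq {Ω : Type} [Fintype Ω] {p : Ω → ℝ} {E : Ω → Prop}
    (hE : IsLaw (cond p E True)) (B : Ω → Prop) :
    cond (cond p E True) B True = cond p (fun ω => E ω ∧ B ω) True := by
  classical
  have hE0 : law p E True ≠ 0 := by
    intro h0
    have h1 := hE.sum_one
    unfold Pool.Agent.H49.Ent.cond at h1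
    rw [h0] at h1
    simp at h1
  have h9 : ∀ ω, cond p E True ω ≠ 0 → E ω := by
    intro ω hω
    unfold Pool.Agent.H49.Ent.cond at hω
    by_contra hc
    exact hω (if_neg (fun h => hc (of_eq_true h)))
  have e1 : cond (cond p E True) (fun ω => E ω ∧ B ω) True = cond (cond p E True) B True := by
    rw [← cond_supp (cond p E True) B, ← cond_supp (cond p E True) (fun ω => E ω ∧ B ω)]
    congr 1
    funext ω
    exact propext ⟨fun h => ⟨h.1.2, h.2⟩, fun h => ⟨⟨h9 ω h.2, h.1⟩, h.2⟩⟩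
  rw [← e1]
  exact Piece.cond_cond (fun ω h => h.1) hE0

/-! ### The list of the bad properties -/

/-- A better label of the coordinate `j`. -/
def BtrJ (u : Fin n → ℝ) (w h : ℝ) (K : ℕ) (j : Fin n) : Stat n := fun J F A =>
  u j + h ≤ 1 ∧ Lb F (Finset.Iio j) j K ⌊w * J⌋₊ J ⌊w * J⌋₊
    ⌊(rad u w j + w) * J⌋₊ ⌊(u j + h) * J⌋₊ A

/-- The pair of rational numbers with the code `c`. -/
def dqc (c : ℕ) : ℚ × ℚ := (Encodable.decode c : Option (ℚ × ℚ)).getD (0, 0)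

theorem dqc_encode (q : ℚ × ℚ) : dqc (Encodable.encode q) = q := by
  unfold dqc
  rw [Encodable.encodek]
  rfl

/-- The coordinate `k` is not active between the digits with the code `c`. -/
def ActC (N : ℚ → ℚ → ℝ) (h : ℝ) (c : ℕ) (k : Fin n) : Stat n := fun J F A =>
  ((k : ℕ) = 0 ∧ Encodable.encode (dqc c) = c ∧ 0 ≤ (dqc c).1 ∧ (dqc c).1 ≤ (dqc c).2 ∧
    (dqc c).2 ≤ 1) ∧ ActF N (dqc c).1 (dqc c).2 h k J F A

/-- The list of the bad properties. -/
def ftL (n : ℕ) (N : ℚ → ℚ → ℝ) (u : Fin n → ℝ) (w : ℝ) (i J : ℕ) :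
    Fin n ⊕ (Fin (i + 1) × Fin n) → ∀ F : Fam n J, (F.Ω → Prop) → Prop
  | Sum.inl j => fun F A => BtrJ u w (1 / ((i : ℝ) + 1)) i j J F A
  | Sum.inr (c, k) => fun F A => ActC N (1 / ((i : ℝ) + 1)) c k J F A

theorem ftL_inv (N : ℚ → ℚ → ℝ) (u : Fin n → ℝ) (w : ℝ) (i J : ℕ)
    (a : Fin n ⊕ (Fin (i + 1) × Fin n)) : Inv0 (ftL n N u w i J a) := by
  rcases a with j | ⟨c, k⟩
  · exact inv0_const (inv0_of_hered fun F => Lb.hered F _ _ _ _ _ _ _ _)
  · exact inv0_const (inv0_actF N _ _ _ k)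

theorem ftL_glu (N : ℚ → ℚ → ℝ) (u : Fin n → ℝ) (w : ℝ) (i J : ℕ)
    (a : Fin n ⊕ (Fin (i + 1) × Fin n)) : GluP (ftL n N u w i J a) := by
  rcases a with j | ⟨c, k⟩
  · exact glu_const (Lb.glu _ _ _ _ _ _ _ _).pos
  · exact glu_const (glu_actF N _ _ _ k)

/-- The bad properties in a part of the sample space. -/
theorem ftL_part (N : ℚ → ℚ → ℝ) (u : Fin n → ℝ) (w : ℝ) (i J : ℕ)
    (a : Fin n ⊕ (Fin (i + 1) × Fin n)) (G : Fam n J) (E : G.Ω → Prop)
    (h : IsLaw (cond G.p E True)) (B : G.Ω → Prop)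
    (hR : ftL n N u w i J a (G.res E True h) B) :
    ftL n N u w i J a G (fun ω => E ω ∧ B ω) := by
  rcases a with j | ⟨c, k⟩
  · obtain ⟨h1, V, z, z', g, hg⟩ := hR
    exact ⟨h1, V, z, z', g, hg.deg, hg.dep, fun ω hω => hg.cls ω hω.2,
      fun ω hω => hg.pos ω hω.2, fun ω hω => hg.vel ω hω.2, fun ω hω => hg.lip ω hω.2⟩
  · change ActC N (1 / ((i : ℝ) + 1)) c k J G (fun ω => E ω ∧ B ω)
    change ActC N (1 / ((i : ℝ) + 1)) c k J (G.res E True h) B at hR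
    refine ⟨hR.1, ?_⟩
    have h2 := hR.2
    unfold ActF at h2 ⊢
    have h3 := cond_part_eq h B
    rw [← h3]
    exact h2

theorem fBad_of_ftL {N : ℚ → ℚ → ℝ} {u : Fin n → ℝ} {w : ℝ} {i : ℕ}
    {a : Fin n ⊕ (Fin (i + 1) × Fin n)} {F : Fam n J} {B : F.Ω → Prop}
    (h : ftL n N u w i J a F B) : FBad N u w i J F B := by
  rcases a with j | ⟨c, k⟩
  · exact Or.inr ⟨j, h.1, h.2⟩
  · obtain ⟨⟨h1, h2, h3⟩, h4⟩ := h
    refine Or.inl ⟨(dqc c).1, (dqc c).2, k, h1, ?_, h3.1, h3.2.1, h3.2.2, h4⟩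
    have h5 := c.2
    change Encodable.encode (dqc c) ≤ i
    omega

theorem ftL_of_btr {N : ℚ → ℚ → ℝ} {u : Fin n → ℝ} {w h : ℝ} {i K : ℕ}
    (hi : 1 / ((i : ℝ) + 1) ≤ h) (hK : K ≤ i) {F : Fam n J} {B : F.Ω → Prop}
    (hb : Btr u w h K J F B) : ∃ a, ftL n N u w i J a F B := by
  obtain ⟨j, h1, V, z, z', g, h2⟩ := hb
  refine ⟨Sum.inl j, by linarith, V, z, z', g, ?_⟩
  refine h2.mono (Finset.Subset.refl _) hK le_rfl le_rfl ?_
  refine Nat.floor_le_floor (mul_le_mul_of_nonneg_right ?_ (Nat.cast_nonneg J))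
  linarith

theorem ftL_of_act {N : ℚ → ℚ → ℝ} {u : Fin n → ℝ} {w h : ℝ} {i : ℕ} {q q' : ℚ}
    (hi : 1 / ((i : ℝ) + 1) ≤ h) (hq : Encodable.encode (q, q') ≤ i) {k : Fin n}
    (hk : (k : ℕ) = 0) (h0 : 0 ≤ q) (h1 : q ≤ q') (h2 : q' ≤ 1) {F : Fam n J} {B : F.Ω → Prop}
    (hb : ActF N q q' h k J F B) : ∃ a, ftL n N u w i J a F B := by
  refine ⟨Sum.inr (⟨Encodable.encode (q, q'), by omega⟩, k), ?_⟩
  change ActC N (1 / ((i : ℝ) + 1)) (Encodable.encode (q, q')) k J F B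
  unfold ActC
  rw [dqc_encode]
  refine ⟨⟨hk, rfl, h0, h1, h2⟩, ?_⟩
  unfold ActF at hb ⊢
  refine lt_of_lt_of_le hb ?_
  have hl2 : 0 ≤ Real.log 2 := (Real.log_pos one_lt_two).le
  exact mul_le_mul_of_nonneg_right (mul_le_mul_of_nonneg_right (by linarith) hl2)
    (Nat.cast_nonneg J)

/-! ### From classes to families with side information -/

/-- The class of the large events with few positions. -/
def cntCl (S : FCl n) (b' : ℝ) : PCl n where
  St := fun τ J F A => S.St τ F A ∧ CntC F.p (F.X J) F.W (Real.exp (b' * J)) A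
  mono := fun h hA => ⟨hA.1.mono h, hA.2⟩
  res := fun hτ hA hB hP => ⟨S.toP.res hτ hA.1 hB hP, hA.2.sub hB⟩

/-- **From classes to families with side information**, for fixed numbers. -/
theorem ftz_core {n : ℕ} {ρ e w : ℝ} (hρ : 0 < ρ) {s u : Fin n → ℝ} {N : ℚ → ℚ → ℝ} {K₀ : ℕ}
    (hF : ∀ S : PCl n, S.Ne →
      (∀ (τ : ℝ) (J : ℕ) (F : Fam n J) (A : F.Ω → Prop), S.St τ J F A → F.Tr ∧ F.Tm (τ * J) ∧
        F.Rb (τ * J) ∧ Real.exp (-(τ * J)) ≤ Pe F.p A ∧ Gd F ∧ Gra K₀ e s u J F) →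
      (∀ (K : ℕ) (h : ℝ), 0 < h → Bas S (fun J F A => ¬ Btr u w h K J F A)) →
      (∀ k : Fin n, (k : ℕ) = 0 → ActB N S k) →
      ¬ Bas S (fun J F A => CH (Pool.Agent.H49.Ent.cond F.p A True) (F.X J) F.W ≤
        ((∑ j, (1 - s j)) - ρ / 2) * Real.log 2 * J))
    (ψ : ℕ → ℝ) (hψ : ∀ i, 0 < ψ i) : ∃ η : ℝ, 0 < η ∧ ∃ M J₁ : ℕ, ∀ J ≥ J₁,
    ∀ G : Fam n J, G.Tm (η * J) → Gd G → Gra K₀ e s u J G →
    (∃ i ≤ M, ∃ B : G.Ω → Prop, Real.exp (-(3 * ψ i * J)) ≤ Pe G.p B ∧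
      FBad N u w i J G B) ∨
    ((∑ j, (1 - s j)) - ρ) * Real.log 2 * J ≤ CH G.p (G.X J) G.W := by
  have hl2 : 0 < Real.log 2 := Real.log_pos one_lt_two
  obtain ⟨b', hb'⟩ : ∃ b', b' = ((∑ j, (1 - s j)) - ρ / 2) * Real.log 2 := ⟨_, rfl⟩
  obtain ⟨b, hb⟩ : ∃ b, b = b' - ρ / 4 * Real.log 2 := ⟨_, rfl⟩
  have hρl : 0 < ρ / 4 * Real.log 2 := by positivity
  by_cases hb0 : 0 ≤ b
  swap
  · push Not at hb0
    refine ⟨1, one_pos, 0, 0, fun J _ G _ _ _ => Or.inr ?_⟩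
    have h1 : ((∑ j, (1 - s j)) - ρ) * Real.log 2 ≤ 0 := by
      have e1 : ((∑ j, (1 - s j)) - ρ) * Real.log 2 = b - ρ / 4 * Real.log 2 := by
        rw [hb, hb']
        ring
      rw [e1]
      linarith
    exact (mul_nonpos_of_nonpos_of_nonneg h1 (Nat.cast_nonneg J)).trans
      (CH_nonneg G.isLaw.nonneg _ _)
  have hb1 : 0 < b' := by linarith
  have hcard : ∀ (i : ℕ) (e : ℝ), 0 < e → ∃ J₀ : ℕ, ∀ J ≥ J₀,
      (Fintype.card (Fin n ⊕ (Fin (i + 1) × Fin n)) : ℝ) ≤ Real.exp (e * J) := by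
    intro i e he
    obtain ⟨J₀, hJ₀⟩ := exists_nat_ge
      ((Fintype.card (Fin n ⊕ (Fin (i + 1) × Fin n)) : ℝ) / e)
    refine ⟨J₀, fun J hJ => ?_⟩
    have h1 : (Fintype.card (Fin n ⊕ (Fin (i + 1) × Fin n)) : ℝ) / e ≤ J :=
      hJ₀.trans (by exact_mod_cast hJ)
    rw [div_le_iff₀ he] at h1
    have h2 := Real.add_one_le_exp (e * J)
    linarith
  obtain ⟨η, hη, N₀, J₁, hmain⟩ := zcl_low (n := n)
    (ι := fun i _ => Fin n ⊕ (Fin (i + 1) × Fin n))
    (R := ftL n N u w) (fun J F => Gd F ∧ Gra K₀ e s u J F) hcard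
    (ftL_inv N u w) (ftL_glu N u w) (ftL_part N u w)
    (fun J G hG => hG.1) (fun J G hG κ k v hl => ⟨hG.1, hG.2.res k v hl⟩)
    (y := fun x => x) hb0 (by
      intro S hS hbad
      have hne : ∀ i : ℕ, Bas S.toP (fun J F A => ¬ ∃ a, ftL n N u w i J a F A) := by
        intro i
        obtain ⟨κ, hκ, hc⟩ := hbad i
        refine Bas.mono 0 hc fun J _ F A h1 => h1 A ?_
        have h2 : Real.exp (-(κ * J)) ≤ 1 := by
          rw [Real.exp_le_one_iff]
          have : 0 ≤ κ * (J : ℝ) := by positivity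
          linarith
        calc _ ≤ 1 * Pe F.p A := mul_le_mul_of_nonneg_right h2 (Pe_nonneg F.isLaw A)
          _ = Pe F.p A := one_mul _
      -- the class of the events with few positions
      obtain ⟨S', hS'⟩ : ∃ S' : PCl n, S' = cntCl S b' := ⟨_, rfl⟩
      have hsub : ∀ (τ : ℝ) (J : ℕ) (F : Fam n J) (A : F.Ω → Prop),
          S'.St τ J F A → S.toP.St τ J F A := by
        intro τ J F A hA
        rw [hS'] at hA
        exact hA.1
      have hno : ¬ S'.Ne := by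
        intro hNe
        refine hF S' hNe ?_ ?_ ?_ ?_
        · intro τ J F A hA
          have h1 : S.St τ F A := hsub τ J F A hA
          exact ⟨S.tr h1.1, S.tm h1.1, S.rb h1.1, h1.2, (hS τ J F h1.1).1⟩
        · intro K h hh
          obtain ⟨i, hi⟩ := exists_inv hh
          have hii : 1 / (((max i K : ℕ) : ℝ) + 1) ≤ h := by
            refine le_trans ?_ hi
            refine one_div_le_one_div_of_le (by positivity) ?_
            have : (i : ℝ) ≤ ((max i K : ℕ) : ℝ) := by exact_mod_cast le_max_left _ _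
            linarith
          refine Bas.sub hsub (Bas.mono 0 (hne (max i K)) fun J _ F A h1 h2 => h1 ?_)
          exact ftL_of_btr hii (le_max_right _ _) h2
        · intro k hk q q' h0 h1 h2 h hh
          obtain ⟨i, hi⟩ := exists_inv hh
          obtain ⟨c, hc⟩ : ∃ c, c = Encodable.encode (q, q') := ⟨_, rfl⟩
          have hii : 1 / (((max i c : ℕ) : ℝ) + 1) ≤ h := by
            refine le_trans ?_ hi
            refine one_div_le_one_div_of_le (by positivity) ?_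
            have : (i : ℝ) ≤ ((max i c : ℕ) : ℝ) := by exact_mod_cast le_max_left _ _
            linarith
          refine Bas.sub hsub (Bas.mono 0 (hne (max i c)) fun J _ F A h3 => ?_)
          by_contra hcon
          push Not at hcon
          exact h3 (ftL_of_act hii (by rw [← hc]; exact le_max_right _ _) hk h0 h1 h2 hcon)
        · refine ⟨1, one_pos, 0, fun J _ F A hA => ?_⟩
          rw [hS'] at hA
          have hA0 : 0 < Pe F.p A := lt_of_lt_of_le (Real.exp_pos _) hA.1.2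
          have h1 := ch_le_cntC F.isLaw (F.X J) F.W
            (Real.one_le_exp (mul_nonneg hb1.le (Nat.cast_nonneg J))) hA0 hA.2
          rw [Real.log_exp, hb'] at h1
          exact h1
      have hno' : Bas S.toP (fun J F A => ¬ CntC F.p (F.X J) F.W (Real.exp (b' * J)) A) := by
        unfold PCl.Ne at hno
        push Not at hno
        obtain ⟨τ, hτ, J₂, h1⟩ := hno
        refine ⟨τ, hτ, J₂, fun J hJ F A hA hc => h1 J hJ F A ?_⟩
        rw [hS']
        exact ⟨hA, hc⟩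
      have h5 := ch_ge_of (S := S.toP) (fun τ J F A hA => lt_of_lt_of_le (Real.exp_pos _) hA.2)
        (b := b) (b' := b') (by linarith) hb1 (fun J F => F.X J) (fun J F => F.W) hno'
      exact clg_of_clp h5.clp)
    ψ hψ (ρ / 4 * Real.log 2) hρl
  refine ⟨η, hη, N₀, J₁, fun J hJ G hTm hGd hGra => ?_⟩
  rcases hmain J hJ G hTm ⟨hGd, hGra⟩ with ⟨i, hi, B, hP, a, ha⟩ | h1
  · exact Or.inl ⟨i, hi, B, hP, fBad_of_ftL ha⟩
  · right
    refine le_trans (le_of_eq ?_) h1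
    rw [hb, hb']
    ring

end Pool.GEN
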