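import Pool.Agent.H71.GEN.Stm2
import Pool.Agent.H35.ZCL.Leaf

/-!
# Leaves of codimension one in a family with side information

`leafZ_thm : LeafZStmt`: the transfer of `LEAFw n` from classes of families to a single family with
side information (a zoom), by `zcl_core` and by gluing of the sections.
-/

set_option autoImplicit false

namespace Pool.GEN

open Finset Real MvPolynomial
open Pool.Agent.H49.Ent Pool.Agent.H32.Dense Pool.STK Pool.KA Pool.KSAT Pool.K2S Pool.PB Pool.S6C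
open Pool.ZCL

variable {n J : ℕ}

/-- The list of the bad properties. -/
def lzBad (n : ℕ) (c x : ℝ) (i : ℕ) : Stat n := fun J F B =>
  BadS n 0 (1 / ((i : ℝ) + 1)) J F B ∨
  (∃ P : ℕ, P ≤ J ∧ (n - c) * Real.log 2 * ((J : ℝ) - P) + 1 / ((i : ℝ) + 1) * J <
    CH (Pool.Agent.H49.Ent.cond F.p B True) (F.X J) (fun ω => (F.X P ω, F.W ω))) ∨
  LL i x J F B

theorem lzBad_inv {n : ℕ} {c x : ℝ} (i J : ℕ) (F : Fam n J) (A : F.Ω → Prop)
    (h : lzBad n c x i J F A) : lzBad n c x i J F (fun ω => A ω ∧ F.p ω ≠ 0) := by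
  rcases h with h | ⟨P, h1, h3⟩ | ⟨i₁, w, P, h1, h2, h3, h4⟩
  · exact Or.inl (PlU.hered _ _ _ _ A _ (fun ω hω => hω.1) h)
  · refine Or.inr (Or.inl ⟨P, h1, ?_⟩)
    rw [cond_supp]
    exact h3
  · exact Or.inr (Or.inr ⟨i₁, w, P, h1, h2, h3,
      Lab.hered _ _ _ _ _ _ _ A _ (fun ω hω => hω.1) h4⟩)

/-- In the class `zc` large parts of the events do not have the bad properties. -/
theorem zc_bad {m : ℕ} {Good : ∀ J : ℕ, Fam m J → Prop} {Bad : ℕ → Stat m} {ψ : ℕ → ℝ}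
    (hψ : ∀ i, 0 < ψ i) (i : ℕ) : Clg (zc m Good Bad ψ) (fun J F A => ∀ B : F.Ω → Prop,
      Real.exp (-(ψ i / 2 * J)) * Pe F.p A ≤ Pe F.p B → ¬ Bad i J F B) := by
  have hψi := hψ i
  refine Clg.of (τ := min (1 / ((i : ℝ) + 1)) (ψ i / 2))
    (lt_min (by positivity) (by positivity)) 0 fun J _ F A hS => ?_
  intro B hPB
  have hJ : (0 : ℝ) ≤ J := Nat.cast_nonneg J
  have hiτ : (i : ℝ) * min (1 / ((i : ℝ) + 1)) (ψ i / 2) ≤ 1 := by
    have h1 : min (1 / ((i : ℝ) + 1)) (ψ i / 2) ≤ 1 / ((i : ℝ) + 1) := min_le_left _ _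
    have h2 : (0 : ℝ) ≤ i := Nat.cast_nonneg i
    calc (i : ℝ) * min (1 / ((i : ℝ) + 1)) (ψ i / 2) ≤ i * (1 / ((i : ℝ) + 1)) :=
          mul_le_mul_of_nonneg_left h1 h2
      _ ≤ 1 := by
          rw [mul_one_div, div_le_one (by positivity)]
          linarith
  refine hS.1.2.2.2.2 i hiτ B (le_trans ?_ hPB)
  refine le_trans ?_ (mul_le_mul_of_nonneg_left hS.2 (Real.exp_pos _).le)
  rw [← Real.exp_add]
  refine Real.exp_le_exp.2 ?_
  have h1 : min (1 / ((i : ℝ) + 1)) (ψ i / 2) * (J : ℝ) ≤ ψ i / 2 * J :=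
    mul_le_mul_of_nonneg_right (min_le_right _ _) hJ
  linarith

/-- In the class `zc` the large events do not have the bad properties. -/
theorem zc_bad_self {m : ℕ} {Good : ∀ J : ℕ, Fam m J → Prop} {Bad : ℕ → Stat m} {ψ : ℕ → ℝ}
    (hψ : ∀ i, 0 < ψ i) (i : ℕ) : Clg (zc m Good Bad ψ) (fun J F A => ¬ Bad i J F A) := by
  refine Clg.mono (J₂ := 0) (zc_bad hψ i) fun J _ F A h => h A ?_
  have h1 : Real.exp (-(ψ i / 2 * J)) ≤ 1 := by
    rw [Real.exp_le_one_iff]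
    have h2 : 0 ≤ ψ i / 2 * (J : ℝ) := mul_nonneg (half_pos (hψ i)).le (Nat.cast_nonneg J)
    linarith
  calc _ ≤ 1 * Pe F.p A := mul_le_mul_of_nonneg_right h1 (Pe_nonneg F.isLaw A)
    _ = Pe F.p A := one_mul _

/-- In an empty class every claim holds. -/
theorem clg_of_not_ne {m : ℕ} {S : FCl m} (hS : ¬ S.toP.Ne) : Clg S (fun _ _ _ => False) := by
  unfold PCl.Ne at hS
  push Not at hS
  obtain ⟨τ, hτ, J₁, h⟩ := hS
  exact Clg.of hτ J₁ fun J hJ F A hA => h J hJ F A hA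

/-- The class of zooms without labels. -/
def lzC (n : ℕ) (c x : ℝ) (ψ : ℕ → ℝ) : FCl n := zc n (fun _ F => Gd F) (lzBad n c x) ψ

theorem sps_lz {c x : ℝ} {ψ : ℕ → ℝ} (hψ : ∀ i, 0 < ψ i) : SPS (lzC n c x ψ) 0 := by
  intro g hg
  obtain ⟨i, hi⟩ := exists_inv hg
  refine ⟨ψ i / 2, half_pos (hψ i), Clg.mono (J₂ := 0) (zc_bad hψ i)
    fun J _ F A h B _ hPB hBad => h B hPB (Or.inl ?_)⟩
  exact hBad.mono (inv_mono (Nat.floor_le_floor
    (mul_le_mul_of_nonneg_right hi (Nat.cast_nonneg J))))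

theorem tla_lz {c x : ℝ} {ψ : ℕ → ℝ} (hψ : ∀ i, 0 < ψ i) : TLA (lzC n c x ψ) c := by
  intro η hη
  obtain ⟨i, hi⟩ := exists_inv hη
  refine Clg.mono (J₂ := 0) (zc_bad_self hψ i) fun J _ F A h P hP => ?_
  by_contra hcon
  push Not at hcon
  refine h (Or.inr (Or.inl ⟨P, hP, lt_of_le_of_lt ?_ hcon⟩))
  have h1 := mul_le_mul_of_nonneg_right hi (Nat.cast_nonneg (α := ℝ) J)
  linarith

theorem ll_lz {c x : ℝ} {ψ : ℕ → ℝ} (hψ : ∀ i, 0 < ψ i) (K : ℕ) :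
    Clg (lzC n c x ψ) (fun J F A => ¬ LL K x J F A) :=
  Clg.mono (J₂ := 0) (zc_bad_self hψ K) fun _ _ _ _ h h1 => h (Or.inr (Or.inr h1))

/-- Quadratic polynomials are small against exponentials. -/
theorem quad_exp {C ψ : ℝ} (hψ : 0 < ψ) :
    ∃ J₀ : ℕ, ∀ J ≥ J₀, C * (J : ℝ) ^ 2 ≤ Real.exp (ψ * J) := by
  obtain ⟨J₀, hJ₀⟩ := exists_nat_gt (6 * C / ψ ^ 3)
  refine ⟨J₀, fun J hJ => ?_⟩
  have h1 : 6 * C / ψ ^ 3 ≤ J := hJ₀.le.trans (by exact_mod_cast hJ)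
  rw [div_le_iff₀ (by positivity)] at h1
  have hJr : (0 : ℝ) ≤ J := Nat.cast_nonneg J
  have h2 := Real.pow_div_factorial_le_exp (ψ * J) (by positivity) 3
  refine le_trans ?_ h2
  have h3 : (Nat.factorial 3 : ℝ) = 6 := by norm_num [Nat.factorial]
  rw [h3, le_div_iff₀ (by norm_num)]
  have h4 : 6 * C * (J : ℝ) ^ 2 ≤ J * ψ ^ 3 * J ^ 2 :=
    mul_le_mul_of_nonneg_right h1 (by positivity)
  calc C * (J : ℝ) ^ 2 * 6 = 6 * C * (J : ℝ) ^ 2 := by ring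
    _ ≤ J * ψ ^ 3 * J ^ 2 := h4
    _ = (ψ * J) ^ 3 := by ring

/-- The indices of the bad properties. -/
abbrev LzI (n J : ℕ) (x : ℝ) : Type :=
  Unit ⊕ (Fin (J + 1) ⊕ (Fin n × Fin (⌊x * J⌋₊ + 1) × Fin (J + 1)))

theorem card_lzI {x : ℝ} (hx : 0 < x) (hJ : 1 ≤ J) :
    (Fintype.card (LzI n J x) : ℝ) ≤ (3 + 2 * n * (x + 1)) * (J : ℝ) ^ 2 := by
  have hJr : (1 : ℝ) ≤ J := by exact_mod_cast hJ
  have h1 : (⌊x * J⌋₊ : ℝ) ≤ x * J := Nat.floor_le (by positivity)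
  have e1 : Fintype.card (LzI n J x) = 1 + ((J + 1) + n * ((⌊x * J⌋₊ + 1) * (J + 1))) := by
    simp [LzI]
  rw [e1]
  push_cast
  have h2 : ((⌊x * J⌋₊ : ℝ) + 1) ≤ (x + 1) * J := by
    calc ((⌊x * J⌋₊ : ℝ) + 1) ≤ x * J + J := add_le_add h1 hJr
      _ = (x + 1) * J := by ring
  have h3 : (J : ℝ) + 1 ≤ 2 * J := by linarith
  have h4 : ((⌊x * J⌋₊ : ℝ) + 1) * ((J : ℝ) + 1) ≤ (x + 1) * J * (2 * J) :=
    mul_le_mul h2 h3 (by positivity) (by positivity)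
  have h5 : (n : ℝ) * (((⌊x * J⌋₊ : ℝ) + 1) * ((J : ℝ) + 1)) ≤ n * ((x + 1) * J * (2 * J)) :=
    mul_le_mul_of_nonneg_left h4 (Nat.cast_nonneg n)
  have h6 : (J : ℝ) ≤ (J : ℝ) ^ 2 := by
    rw [sq]
    calc (J : ℝ) = 1 * J := (one_mul _).symm
      _ ≤ J * J := mul_le_mul_of_nonneg_right hJr (by positivity)
  calc (1 : ℝ) + (((J : ℝ) + 1) + n * (((⌊x * J⌋₊ : ℝ) + 1) * ((J : ℝ) + 1)))
      ≤ (J : ℝ) ^ 2 + (2 * (J : ℝ) ^ 2 + n * ((x + 1) * J * (2 * J))) := by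
        have h7 : (1 : ℝ) ≤ (J : ℝ) ^ 2 := hJr.trans h6
        have h8 : (J : ℝ) + 1 ≤ 2 * (J : ℝ) ^ 2 := by linarith
        exact add_le_add h7 (add_le_add h8 h5)
    _ = (3 + 2 * n * (x + 1)) * (J : ℝ) ^ 2 := by ring

/-- An event of positive probability. -/
theorem exists_pos {Ω : Type} [Fintype Ω] {p : Ω → ℝ} {B : Ω → Prop} (hB : 0 < Pe p B) :
    ∃ ω, 0 < p ω ∧ B ω := by
  classical
  by_contra hcon
  push Not at hcon
  have : Pe p B ≤ 0 := by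
    rw [Pe_eq]
    refine Finset.sum_nonpos fun ω _ => ?_
    split_ifs with hω
    · by_contra h3
      push Not at h3
      exact hcon ω h3 hω
    · exact le_rfl
  linarith

/-- The bad properties of the sections, glued. -/
theorem lz_glue {c x : ℝ} {i : ℕ} {G : Fam n J} {κ : Type} {k : G.Ω → κ}
    {B : G.Ω → Prop} (hS : Sel G k B) (hB : 0 < Pe G.p B)
    (h : ∀ ω, 0 < G.p ω → B ω → ∀ hl : IsLaw (cond G.p k (k ω)),
      lzBad n c x i J (G.res k (k ω) hl) (fun ω' => B ω' ∧ k ω' = k ω)) :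
    ∃ B' : G.Ω → Prop, Pe G.p B ≤ Fintype.card (LzI n J x) * Pe G.p B' ∧
      (PlU 0 (1 / 2 ^ ⌊1 / ((i : ℝ) + 1) * J⌋₊) (Fam.pt G) G.d B' ∨
      (∃ P ≤ J, (n - c) * Real.log 2 * ((J : ℝ) - P) + 1 / ((i : ℝ) + 1) * J <
        CH (Pool.Agent.H49.Ent.cond G.p B' True) (G.X J) (fun ω => (G.X P ω, G.W ω))) ∨
      LL i x J G B') := by
  classical
  have hp := G.isLaw
  obtain ⟨a, B', hB', hP, hsec⟩ := sec_pigeon (ι := LzI n J x) hp k B hB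
    (fun a v E => ∀ hl : IsLaw (cond G.p k v), match a with
      | Sum.inl _ => BadS n 0 (1 / ((i : ℝ) + 1)) J (G.res k v hl) E
      | Sum.inr (Sum.inl P) =>
        (n - c) * Real.log 2 * ((J : ℝ) - (P : ℕ)) + 1 / ((i : ℝ) + 1) * J <
        CH (Pool.Agent.H49.Ent.cond (G.res k v hl).p E True) ((G.res k v hl).X J)
          (fun ω => ((G.res k v hl).X (P : ℕ) ω, (G.res k v hl).W ω))
      | Sum.inr (Sum.inr (i₁, w, P)) => ((w : ℕ) : ℝ) ≤ x * J ∧ (1 - x) * J ≤ ((P : ℕ) : ℝ) ∧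
        Lab (G.res k v hl) i₁ J i (w : ℕ) (w : ℕ) (P : ℕ) E)
    (by
      intro ω hω hBω
      rcases h ω hω hBω (isLaw_sec hp k hω) with h1 | ⟨P, h1, h3⟩ | ⟨i₁, w, P, h1, h2, h3, h4⟩
      · exact ⟨Sum.inl (), fun hl => h1⟩
      · exact ⟨Sum.inr (Sum.inl ⟨P, by omega⟩), fun hl => h3⟩
      · exact ⟨Sum.inr (Sum.inr (i₁, ⟨w, Nat.lt_succ_of_le (Nat.le_floor h1)⟩,
          ⟨P, by omega⟩)), fun hl => ⟨h1, h2, h4⟩⟩)
  have hB0 : 0 < Pe G.p B' := by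
    by_contra h1
    push Not at h1
    have h2 : ((Fintype.card (LzI n J x) : ℕ) : ℝ) * Pe G.p B' ≤ 0 :=
      mul_nonpos_of_nonneg_of_nonpos (Nat.cast_nonneg _) h1
    linarith
  have hS' := hS.sub hB'
  have hP' : Pe G.p B ≤ Fintype.card (LzI n J x) * Pe G.p (fun ω => B' ω ∧ G.p ω ≠ 0) := by
    rw [Pe_supp]
    exact hP
  rcases a with u | P | ⟨i₁, w, P⟩
  · exact ⟨fun ω => B' ω ∧ G.p ω ≠ 0, hP', Or.inl
      (plu_glue hS' fun ω hω hBω hl => hsec ω hω hBω hl)⟩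
  · refine ⟨B', hP, Or.inr (Or.inl ⟨P, by have := P.2; omega,
      ch_glue hp _ _ k B' hB0 ?_ fun ω hω hBω => hsec ω hω hBω (isLaw_sec hp k hω)⟩)⟩
    intro ω ω' _ _ h5 h6 h7
    exact hS'.2 ω ω' h5 h6 (Prod.ext_iff.1 (Prod.ext_iff.1 h7).2).2
  · obtain ⟨ω₀, h1, h2⟩ := exists_pos hB0
    obtain ⟨h3, h4, -⟩ := hsec ω₀ h1 h2 (isLaw_sec hp k h1)
    exact ⟨fun ω => B' ω ∧ G.p ω ≠ 0, hP', Or.inr (Or.inr ⟨i₁, w, P, h3, h4,
      by have := P.2; omega, lab_glue hS' fun ω hω hBω hl => (hsec ω hω hBω hl).2.2⟩)⟩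

/-- **(LEAF) for a family with side information**, from the statement for classes. -/
theorem leafZ_thm : LeafZStmt := by
  intro n hn hL c x B₀ hc hx hB₀ ψ hψ
  have hNe : ¬ (lzC n c x ψ).toP.Ne := fun hNe =>
    hL (lzC n c x ψ) c hc hNe (fun τ J F h => h.2.2.2.1) (sps_lz hψ) (tla_lz hψ) x hx
      (ll_lz hψ)
  obtain ⟨η, hη, N, J₁, hcore⟩ := zcl_core (Good := fun _ F => Gd F) (Bad := lzBad n c x) hψ
    lzBad_inv (clg_of_not_ne hNe) hB₀ one_pos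
  obtain ⟨J₂, hJ₂⟩ : ∃ J₂ : ℕ → ℕ, ∀ i, ∀ J ≥ J₂ i,
      (3 + 2 * n * (x + 1)) * (J : ℝ) ^ 2 ≤ Real.exp (ψ i * J) := by
    have := fun i => quad_exp (C := 3 + 2 * n * (x + 1)) (hψ i)
    choose J₂ hJ₂ using this
    exact ⟨J₂, hJ₂⟩
  refine ⟨η, hη, N, max (max J₁ 1) (∑ i ∈ range (N + 1), J₂ i), fun J hJ G hTm hl hGd => ?_⟩
  have hJ1 : J₁ ≤ J := (le_max_left _ _).trans ((le_max_left _ _).trans hJ)
  have hJ0 : 1 ≤ J := (le_max_right _ _).trans ((le_max_left _ _).trans hJ)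
  have hp := G.isLaw
  by_contra hcon
  obtain ⟨κ, k, B, -, hPB, hsec⟩ := hcore J hJ1 G hTm hl (fun κ k v h _ => hGd) (by
    intro i hi κ k B hSel hPB hbad
    have hB0 : 0 < Pe G.p B := lt_of_lt_of_le (Real.exp_pos _) hPB
    obtain ⟨B', h1, h2⟩ := lz_glue hSel hB0 hbad
    refine hcon ⟨i, hi, B', ?_, h2⟩
    have hJi : J₂ i ≤ J := (Finset.single_le_sum (f := J₂) (fun _ _ => Nat.zero_le _)
      (Finset.mem_range.2 (by omega))).trans ((le_max_right _ _).trans hJ)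
    have h3 : (Fintype.card (LzI n J x) : ℝ) ≤ Real.exp (ψ i * J) :=
      (card_lzI hx hJ0).trans (hJ₂ i J hJi)
    have h4 : Real.exp (-(2 * ψ i * J)) ≤ Real.exp (ψ i * J) * Pe G.p B' :=
      hPB.trans (h1.trans (mul_le_mul_of_nonneg_right h3 (Pe_nonneg hp B')))
    have h5 : Real.exp (-(3 * ψ i * J)) =
        Real.exp (-(ψ i * J)) * Real.exp (-(2 * ψ i * J)) := by
      rw [← Real.exp_add]
      congr 1
      ring
    rw [h5]
    calc _ ≤ Real.exp (-(ψ i * J)) * (Real.exp (ψ i * J) * Pe G.p B') :=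
          mul_le_mul_of_nonneg_left h4 (Real.exp_pos _).le
      _ = Pe G.p B' := by
          rw [← mul_assoc, ← Real.exp_add]
          have : -(ψ i * (J : ℝ)) + ψ i * J = 0 := by ring
          rw [this, Real.exp_zero, one_mul])
  obtain ⟨ω, h1, h2⟩ := exists_pos (lt_of_lt_of_le (Real.exp_pos _) hPB)
  exact hsec ω h1 h2 (isLaw_sec hp k h1)

end Pool.GEN
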