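import Pool.Agent.H1.GEN.Zg
import Pool.Agent.H75.S6C.Exh
import Pool.Agent.H62.OVN.Tme

/-!
# Lower bounds for entropies: from classes to families with side information

`zcl_low`: if in every class of families with the property `Good` which avoids the bad properties
`R i J a` the entropy of a function of the position is at least `b J`, then the same holds, up to
`ε J`, in every family with side information with the property `Good` and without the bad
properties. (Exhaustion: parts with large entropy.)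
-/

set_option autoImplicit false

namespace Pool.GEN

open Finset Real MvPolynomial
open Pool.Agent.H49.Ent Pool.Agent.H32.Dense Pool.STK Pool.KA Pool.KSAT Pool.K2S Pool.PB Pool.S6C
open Pool.ZCL

variable {n J : ℕ}

/-- The number of the rounded lines in the unit box. -/
theorem gd_lines {G : Fam n J} (hG : Gd G) (hJ : 1 ≤ J) : ∀ z, 0 < law G.p G.Z z →
    H (Pool.Agent.H49.Ent.cond G.p G.Z z) G.l ≤ (4 * n + 1) * J := by
  classical
  intro z hz
  have hp := G.isLaw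
  obtain ⟨q, hq⟩ : ∃ q, q = cond G.p G.Z z := ⟨_, rfl⟩
  have hl : IsLaw q := by
    rw [hq]
    exact ⟨cond_nonneg hp.nonneg _ _, sum_cond _ _ hz.ne'⟩
  rw [← hq]
  have p0 : (0 : ℝ) < 2 ^ J := by positivity
  obtain ⟨v, hv⟩ : ∃ v : G.Ω → (Fin n → ℤ) × (Fin n → ℤ), v = fun ω =>
      (fun i => ⌊(2 : ℝ) ^ J * G.u ω i⌋, fun i => ⌊(2 : ℝ) ^ J * G.d ω i⌋) := ⟨_, rfl⟩
  have hfl : ∀ r : ℝ, (∃ a : ℤ, r = a / 2 ^ J) → r = (⌊(2 : ℝ) ^ J * r⌋ : ℤ) / 2 ^ J := by
    rintro r ⟨a, rfl⟩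
    have : (2 : ℝ) ^ J * ((a : ℝ) / 2 ^ J) = a := by field_simp
    rw [this, Int.floor_intCast]
  have e1 : H q G.l ≤ H q v := by
    refine H_mono hl.nonneg fun ω ω' _ _ h1 => ?_
    rw [hv] at h1
    have h2 := Prod.ext_iff.1 h1
    simp only at h2
    refine Prod.ext ?_ ?_
    · funext i
      have h3 : ⌊(2 : ℝ) ^ J * G.u ω i⌋ = ⌊(2 : ℝ) ^ J * G.u ω' i⌋ := congrFun h2.1 i
      change G.u ω i = G.u ω' i
      rw [hfl _ (hG ω i).2.2.1, hfl _ (hG ω' i).2.2.1, h3]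
    · funext i
      have h3 : ⌊(2 : ℝ) ^ J * G.d ω i⌋ = ⌊(2 : ℝ) ^ J * G.d ω' i⌋ := congrFun h2.2 i
      change G.d ω i = G.d ω' i
      rw [hfl _ (hG ω i).2.2.2, hfl _ (hG ω' i).2.2.2, h3]
  have hmem : ∀ r : ℝ, 0 ≤ r → r ≤ 1 →
      ⌊(2 : ℝ) ^ J * r⌋ ∈ (Finset.Icc 0 (2 ^ J) : Finset ℤ) := by
    intro r h0 h1
    rw [Finset.mem_Icc]
    constructor
    · exact Int.floor_nonneg.2 (by positivity)
    · rw [← Int.lt_add_one_iff, Int.floor_lt]
      push_cast
      have : (2 : ℝ) ^ J * r ≤ 2 ^ J * 1 := mul_le_mul_of_nonneg_left h1 p0.le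
      linarith
  have e2 := H_le_log_card hl.nonneg hl.sum_one v
    ((Fintype.piFinset fun _ : Fin n => (Finset.Icc 0 (2 ^ J) : Finset ℤ)) ×ˢ
      (Fintype.piFinset fun _ : Fin n => (Finset.Icc 0 (2 ^ J) : Finset ℤ))) (by
    intro ω _
    rw [hv]
    rw [Finset.mem_product, Fintype.mem_piFinset, Fintype.mem_piFinset]
    refine ⟨fun i => hmem _ (hG ω i).1.1 (hG ω i).1.2, fun i => hmem _ (hG ω i).2.1 ?_⟩
    exact (le_abs_self _).trans (G.dir ω i))
  have e3 : (((Fintype.piFinset fun _ : Fin n => (Finset.Icc 0 (2 ^ J) : Finset ℤ)) ×ˢ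
      (Fintype.piFinset fun _ : Fin n => (Finset.Icc 0 (2 ^ J) : Finset ℤ))).card : ℝ) =
      (2 ^ J + 1) ^ (2 * n) := by
    rw [Finset.card_product, Fintype.card_piFinset]
    simp only [Int.card_Icc, Finset.prod_const, Finset.card_univ, Fintype.card_fin]
    have : ((2 : ℤ) ^ J + 1 - 0).toNat = 2 ^ J + 1 := by
      have h1 : ((2 : ℤ) ^ J + 1 - 0) = ((2 ^ J + 1 : ℕ) : ℤ) := by push_cast; ring
      rw [h1, Int.toNat_natCast]
    rw [this]
    push_cast
    rw [← pow_add]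
    congr 1
    ring
  rw [e3] at e2
  have hJr : (1 : ℝ) ≤ J := by exact_mod_cast hJ
  have e4 : Real.log ((2 ^ J + 1) ^ (2 * n)) ≤ 4 * n * J := by
    rw [Real.log_pow]
    have h1 : (2 : ℝ) ^ J + 1 ≤ 2 ^ (J + 1) := by
      rw [pow_succ]
      have : (1 : ℝ) ≤ 2 ^ J := one_le_pow₀ (by norm_num)
      linarith
    have h2 : Real.log (2 ^ J + 1) ≤ (J + 1 : ℕ) * Real.log 2 := by
      rw [← Real.log_pow]
      exact Real.log_le_log (by positivity) h1
    have h3 : Real.log 2 ≤ 1 := by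
      have := Real.log_two_lt_d9
      linarith
    have h4 : Real.log (2 ^ J + 1) ≤ 2 * J := by
      refine h2.trans ?_
      have h5 : ((J + 1 : ℕ) : ℝ) * Real.log 2 ≤ ((J + 1 : ℕ) : ℝ) * 1 :=
        mul_le_mul_of_nonneg_left h3 (Nat.cast_nonneg _)
      push_cast at h5 ⊢
      linarith
    have h6 := mul_le_mul_of_nonneg_left h4 (Nat.cast_nonneg (α := ℝ) (2 * n))
    push_cast at h6 ⊢
    linarith
  have e5 : (4 * n + 1 : ℝ) * J = 4 * n * J + J := by ring
  rw [e5]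
  have : (0 : ℝ) ≤ J := by linarith
  linarith

/-- **Lower bounds for conditional entropies, glued.** -/
theorem ch_glue_ge {Ω S T V : Type} [Fintype Ω] {p : Ω → ℝ} (hp : IsLaw p) (X : Ω → S) (W : Ω → T)
    (c : Ω → V) (B : Ω → Prop) {b : ℝ} (hB : 0 < Pe p B)
    (hc : ∀ ω ω', 0 < p ω → 0 < p ω' → B ω → B ω' → W ω = W ω' → c ω = c ω')
    (h : ∀ ω, 0 < p ω → B ω →
      b ≤ CH (cond (cond p c (c ω)) (fun ω' => B ω' ∧ c ω' = c ω) True) X W) :
    b ≤ CH (cond p B True) X W := by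
  refine le_of_forall_lt fun b' hb' => ?_
  exact ch_glue hp X W c B hB hc fun ω h1 h2 => lt_of_lt_of_le hb' (h ω h1 h2)

theorem cond_univ {Ω : Type} [Fintype Ω] {p : Ω → ℝ} (hp : IsLaw p) :
    cond p (fun _ => True) True = p := by
  classical
  have h1 : law p (fun _ => True) True = 1 := by
    unfold law
    rw [← hp.sum_one]
    exact Finset.sum_congr rfl fun ω _ => if_pos rfl
  funext ω
  unfold Pool.Agent.H49.Ent.cond
  rw [h1, if_pos rfl, div_one]

/-- The side information is constant on the support. -/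
def Zc (F : Fam n J) : Prop := ∀ ω ω' : F.Ω, 0 < F.p ω → 0 < F.p ω' → F.Z ω = F.Z ω'

/-- In the class `zc` all large events avoid the bad properties, without stability. -/
theorem zc_bas {m : ℕ} {Good : ∀ J : ℕ, Fam m J → Prop} {Bad : ℕ → Stat m} {ψ : ℕ → ℝ}
    (hψ : ∀ i, 0 < ψ i) (i : ℕ) : Bas (zc m Good Bad ψ).toP (fun J F A => ∀ B : F.Ω → Prop,
      Real.exp (-(ψ i / 2 * J)) * Pe F.p A ≤ Pe F.p B → ¬ Bad i J F B) := by
  have hψi := hψ i
  refine ⟨min (1 / ((i : ℝ) + 1)) (ψ i / 2), lt_min (by positivity) (by positivity), 0,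
    fun J _ F A hS => ?_⟩
  intro B hPB
  have hJ : (0 : ℝ) ≤ J := Nat.cast_nonneg J
  have hiτ : (i : ℝ) * min (1 / ((i : ℝ) + 1)) (ψ i / 2) ≤ 1 := by
    have h1 : min (1 / ((i : ℝ) + 1)) (ψ i / 2) ≤ 1 / ((i : ℝ) + 1) := min_le_left _ _
    have h2 : (0 : ℝ) ≤ i := Nat.cast_nonneg i
    calc (i : ℝ) * min (1 / ((i : ℝ) + 1)) (ψ i / 2) ≤ i * (1 / ((i : ℝ) + 1)) :=
          mul_le_mul_of_nonneg_left h1 h2
      _ ≤ 1 := by
          rw [mul_one_div, div_le_one (by positivity)]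
          linarith
  refine hS.1.2.2.2.2 i hiτ B (le_trans ?_ hPB)
  refine le_trans ?_ (mul_le_mul_of_nonneg_left hS.2 (Real.exp_pos _).le)
  rw [← Real.exp_add]
  refine Real.exp_le_exp.2 ?_
  have h1 : min (1 / ((i : ℝ) + 1)) (ψ i / 2) * (J : ℝ) ≤ ψ i / 2 * J :=
    mul_le_mul_of_nonneg_right (min_le_right _ _) hJ
  linarith

/-- **Lower bounds for entropies in a family with side information.** -/
theorem zcl_low {ι : ℕ → ℕ → Type} [∀ i J, Fintype (ι i J)]
    {R : ∀ (i J : ℕ), ι i J → ∀ F : Fam n J, (F.Ω → Prop) → Prop}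
    (Good : ∀ J : ℕ, Fam n J → Prop)
    (hcard : ∀ (i : ℕ) (e : ℝ), 0 < e → ∃ J₀ : ℕ, ∀ J ≥ J₀,
      (Fintype.card (ι i J) : ℝ) ≤ Real.exp (e * J))
    (hinv : ∀ (i J : ℕ) (a : ι i J), Inv0 (R i J a))
    (hgl : ∀ (i J : ℕ) (a : ι i J), GluP (R i J a))
    (hsub : ∀ (i J : ℕ) (a : ι i J) (G : Fam n J) (E : G.Ω → Prop)
      (h : IsLaw (cond G.p E True)) (B : G.Ω → Prop), R i J a (G.res E True h) B →
      R i J a G (fun ω => E ω ∧ B ω))
    (hGd : ∀ (J : ℕ) (G : Fam n J), Good J G → Gd G)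
    (hGood : ∀ (J : ℕ) (G : Fam n J), Good J G → ∀ (κ : Type) (k : G.Ω → κ) (v : κ)
      (h : IsLaw (cond G.p k v)), Good J (G.res k v h))
    {κ' : Type} (y : (Fin n → ℤ) → κ') {b : ℝ} (hb : 0 ≤ b)
    (hL : ∀ S : FCl n, (∀ (τ : ℝ) (J : ℕ) (F : Fam n J), S.T τ J F → Good J F ∧ Zc F) →
      (∀ i : ℕ, ∃ κ : ℝ, 0 < κ ∧ Bas S.toP (fun J F A => ∀ B : F.Ω → Prop,
        Real.exp (-(κ * J)) * Pe F.p A ≤ Pe F.p B → ¬ ∃ a : ι i J, R i J a F B)) →
      Clg S (fun J F A => b * J ≤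
        CH (Pool.Agent.H49.Ent.cond F.p A True) (fun ω => y (F.X J ω)) F.W)) :
    ∀ ψ : ℕ → ℝ, (∀ i, 0 < ψ i) → ∀ ε : ℝ, 0 < ε →
    ∃ η : ℝ, 0 < η ∧ ∃ N J₁ : ℕ, ∀ J ≥ J₁, ∀ G : Fam n J, G.Tm (η * J) → Good J G →
    (∃ i ≤ N, ∃ B : G.Ω → Prop, Real.exp (-(3 * ψ i * J)) ≤ Pe G.p B ∧
      ∃ a : ι i J, R i J a G B) ∨
    (b - ε) * J ≤ CH G.p (fun ω => y (G.X J ω)) G.W := by
  classical
  intro ψ hψ ε hε
  obtain ⟨Bad, hBd⟩ : ∃ Bad : ℕ → Stat n, Bad = fun i J F B => ∃ a : ι i J, R i J a F B :=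
    ⟨_, rfl⟩
  have hBd' : ∀ (i J : ℕ) (F : Fam n J) (B : F.Ω → Prop),
      Bad i J F B ↔ ∃ a : ι i J, R i J a F B := fun i J F B => by rw [hBd]
  have hΦ := hL (zc n (fun J F => Good J F ∧ Zc F) Bad ψ) (fun τ J F h => h.2.2.2.1) fun i => ⟨ψ i / 2, half_pos (hψ i),
    Bas.mono 0 (zc_bas hψ i) fun J _ F A h B hPB => by
      have h1 := h B hPB
      rwa [hBd'] at h1⟩
  have hB₀ : (0 : ℝ) < 4 * n + 1 := by positivity
  obtain ⟨η₀, hη₀, N, J₁, hcore⟩ := zcl_core (Good := fun J F => Good J F ∧ Zc F)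
    (Bad := Bad) hψ
    (fun i J F A h => by
      rw [hBd'] at h ⊢
      obtain ⟨a, ha⟩ := h
      exact ⟨a, hinv i J a F A ha⟩) hΦ hB₀ one_pos
  -- the proportion of the exhausted part
  obtain ⟨δ, hδ⟩ : ∃ δ, δ = min (1 / 2) (ε / (b + 1)) := ⟨_, rfl⟩
  have hb1 : 0 < b + 1 := by linarith
  have hδ0 : 0 < δ := by
    rw [hδ]
    exact lt_min (by norm_num) (div_pos hε hb1)
  have hδb : δ * b ≤ ε := by
    have h1 : δ ≤ ε / (b + 1) := by
      rw [hδ]
      exact min_le_right _ _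
    have h2 : δ * (b + 1) ≤ ε := by rwa [le_div_iff₀ hb1] at h1
    linarith
  have key : ∀ i, ∃ J₀ : ℕ, ∀ J ≥ J₀,
      (Fintype.card (ι i J) : ℝ) ≤ δ * Real.exp (ψ i * J) := by
    intro i
    obtain ⟨J₃, h3⟩ := hcard i (ψ i / 2) (half_pos (hψ i))
    obtain ⟨J₄, h4⟩ := exists_nat_ge (2 * |Real.log δ| / ψ i)
    refine ⟨max J₃ J₄, fun J hJ => (h3 J ((le_max_left _ _).trans hJ)).trans ?_⟩
    have hJ4 : (J₄ : ℝ) ≤ J := by exact_mod_cast (le_max_right _ _).trans hJ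
    have h5 : 2 * |Real.log δ| / ψ i ≤ J := h4.trans hJ4
    rw [div_le_iff₀ (hψ i)] at h5
    have h6 : -Real.log δ ≤ |Real.log δ| := neg_le_abs _
    have e1 : δ = Real.exp (Real.log δ) := (Real.exp_log hδ0).symm
    rw [e1, ← Real.exp_add]
    refine Real.exp_le_exp.2 ?_
    linarith
  choose J₂ hJ₂ using key
  obtain ⟨J₅, hJ₅⟩ := exists_nat_ge (2 * Real.log 2 / (δ * η₀))
  refine ⟨δ * η₀ / 2, by positivity, N, max (max J₁ 1) (max (∑ i ∈ range (N + 1), J₂ i) J₅),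
    fun J hJ G hTm hGd' => ?_⟩
  have hJ1 : J₁ ≤ J := (le_max_left _ _).trans ((le_max_left _ _).trans hJ)
  have hJ0 : 1 ≤ J := (le_max_right _ _).trans ((le_max_left _ _).trans hJ)
  have hJ2 : ∑ i ∈ range (N + 1), J₂ i ≤ J :=
    (le_max_left _ _).trans ((le_max_right _ _).trans hJ)
  have hJ5 : (J₅ : ℝ) ≤ J := by
    exact_mod_cast (le_max_right _ _).trans ((le_max_right _ _).trans hJ)
  have hp := G.isLaw
  by_cases hcon : ∃ i ≤ N, ∃ B : G.Ω → Prop, Real.exp (-(3 * ψ i * J)) ≤ Pe G.p B ∧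
      ∃ a : ι i J, R i J a G B
  · exact Or.inl hcon
  right
  have hJr : (0 : ℝ) ≤ J := Nat.cast_nonneg J
  have hP1 : Pe G.p (fun _ => True) = 1 := Pe_univ hp
  have hex := exh_ge hp (A := fun _ => True) (by rw [hP1]; exact one_pos)
    (fun ω => y (G.X J ω)) G.W (δ := δ) (E := b * J) (mul_nonneg hb hJr) hδ0.le (by
    intro E _ hE0 hE
    rw [hP1, mul_one] at hE
    have hElaw := isLaw_cond hp hE0
    obtain ⟨G', hG'⟩ : ∃ G' : Fam n J, G' = G.res E True hElaw := ⟨_, rfl⟩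
    have hTm' : (G.res E True hElaw).Tm (η₀ * J) := by
      have h1 := Pool.OVN.res_Tm_of_event hTm hE0
      unfold Fam.Tm at h1 ⊢
      refine le_trans ?_ h1
      have h2 : (δ * η₀ / 2 * J + Real.log 2) / Pe G.p E ≤ η₀ * J := by
        rw [div_le_iff₀ hE0]
        have h3 : 2 * Real.log 2 / (δ * η₀) ≤ J := hJ₅.trans hJ5
        rw [div_le_iff₀ (by positivity)] at h3
        have h4 : η₀ * J * δ ≤ η₀ * J * Pe G.p E :=
          mul_le_mul_of_nonneg_left hE (mul_nonneg hη₀.le hJr)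
        linarith
      linarith
    obtain ⟨κ, k, B, hSel, hPB, hsec⟩ := hcore J hJ1 (G.res E True hElaw) hTm'
      (gd_lines (hGd J _ (hGood J G hGd' _ E True hElaw)) hJ0)
      (fun κ k v h hk => ⟨hGood J _ (hGood J G hGd' _ E True hElaw) κ k v h, by
        intro ω ω' hω hω'
        have e1 := (cond_pos_iff hElaw.nonneg k v ω).1 hω
        have e2 := (cond_pos_iff hElaw.nonneg k v ω').1 hω'
        exact hk ω ω' (e1.2.trans e2.2.symm)⟩) (by
      intro i hi κ k B hSel hPB hbad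
      have hB0 : 0 < Pe (G.res E True hElaw).p B := lt_of_lt_of_le (Real.exp_pos _) hPB
      obtain ⟨a, B', hB', hP, hsec⟩ := sec_pigeon (ι := ι i J) hElaw k B hB0
        (fun a v E' => ∀ hl : IsLaw (cond (G.res E True hElaw).p k v),
          R i J a ((G.res E True hElaw).res k v hl) E') (by
          intro ω hω hBω
          have h1 := hbad ω hω hBω (isLaw_sec hElaw k hω)
          rw [hBd'] at h1
          obtain ⟨a, ha⟩ := h1
          exact ⟨a, fun hl => ha⟩)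
      have hB0' : 0 < Pe (G.res E True hElaw).p B' := by
        by_contra h1
        push Not at h1
        have h2 : ((Fintype.card (ι i J) : ℕ) : ℝ) * Pe (G.res E True hElaw).p B' ≤ 0 :=
          mul_nonpos_of_nonneg_of_nonpos (Nat.cast_nonneg _) h1
        have h3 : Pe (G.res E True hElaw).p B ≤
          (Fintype.card (ι i J) : ℕ) * Pe (G.res E True hElaw).p B' := hP
        linarith
      have hR := hgl i J a (G.res E True hElaw) κ k B' (hSel.sub hB') hB0'
        fun ω hω hBω hl => hsec ω hω hBω hl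
      have hR' := hsub i J a G E hElaw _ hR
      refine hcon ⟨i, hi, _, ?_, a, hR'⟩
      have hJi : J₂ i ≤ J := (Finset.single_le_sum (f := J₂) (fun _ _ => Nat.zero_le _)
        (Finset.mem_range.2 (by omega))).trans hJ2
      have h3 := hJ₂ i J hJi
      have e1 : Pe G.p (fun ω => E ω ∧ B' ω ∧ (G.res E True hElaw).p ω ≠ 0) =
          Pe (G.res E True hElaw).p B' * Pe G.p E := by
        have h5 : Pe (G.res E True hElaw).p B' = Pe G.p (fun ω => E ω ∧ B' ω) / Pe G.p E :=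
          Pe_cond (p := G.p) (A := E) B'
        rw [h5, div_mul_cancel₀ _ hE0.ne']
        rw [← Pe_supp G.p (fun ω => E ω ∧ B' ω)]
        rw [← Pe_supp G.p (fun ω => E ω ∧ B' ω ∧ (G.res E True hElaw).p ω ≠ 0)]
        congr 1
        funext ω
        refine propext ⟨fun h6 => ⟨⟨h6.1.1, h6.1.2.1⟩, h6.2⟩, fun h6 => ⟨⟨h6.1.1, h6.1.2, ?_⟩,
          h6.2⟩⟩
        have h7 : 0 < G.p ω := lt_of_le_of_ne (hp.nonneg ω) (Ne.symm h6.2)
        exact ((cond_pos_iff hp.nonneg E True ω).2 ⟨h7, eq_true h6.1.1⟩).ne'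
      rw [e1]
      have h4 : Real.exp (-(2 * ψ i * J)) ≤
          δ * Real.exp (ψ i * J) * Pe (G.res E True hElaw).p B' :=
        hPB.trans (hP.trans (mul_le_mul_of_nonneg_right h3 (Pe_nonneg hElaw B')))
      have h5 : Real.exp (-(3 * ψ i * J)) =
          Real.exp (-(ψ i * J)) * Real.exp (-(2 * ψ i * J)) := by
        rw [← Real.exp_add]
        congr 1
        ring
      have h6 : Real.exp (-(3 * ψ i * J)) ≤ δ * Pe (G.res E True hElaw).p B' := by
        rw [h5]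
        calc _ ≤ Real.exp (-(ψ i * J)) *
              (δ * Real.exp (ψ i * J) * Pe (G.res E True hElaw).p B') :=
              mul_le_mul_of_nonneg_left h4 (Real.exp_pos _).le
          _ = δ * Pe (G.res E True hElaw).p B' := by
              have h7 : Real.exp (-(ψ i * J)) * Real.exp (ψ i * J) = 1 := by
                rw [← Real.exp_add]
                have : -(ψ i * (J : ℝ)) + ψ i * J = 0 := by ring
                rw [this, Real.exp_zero]
              calc _ = (Real.exp (-(ψ i * J)) * Real.exp (ψ i * J)) *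
                    (δ * Pe (G.res E True hElaw).p B') := by ring
                _ = _ := by rw [h7, one_mul]
      refine h6.trans ?_
      rw [mul_comm]
      exact mul_le_mul_of_nonneg_left hE hB0'.le)
    have hB0 : 0 < Pe (G.res E True hElaw).p B := lt_of_lt_of_le (Real.exp_pos _) hPB
    have h1 : b * J ≤ CH (cond (G.res E True hElaw).p B True)
        (fun ω => y (G.X J ω)) G.W := by
      refine ch_glue_ge hElaw _ _ k B hB0 ?_ fun ω hω hBω =>
        hsec ω hω hBω (isLaw_sec hElaw k hω)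
      intro ω ω' _ _ h5 h6 h7
      exact hSel.2 ω ω' h5 h6 (Prod.ext_iff.1 h7).2
    have h5 : Pe (G.res E True hElaw).p B = Pe G.p (fun ω => E ω ∧ B ω) / Pe G.p E :=
      Pe_cond (p := G.p) (A := E) B
    have h6 : 0 < Pe G.p (fun ω => E ω ∧ B ω) := by
      rw [h5] at hB0
      by_contra hc
      push Not at hc
      have : Pe G.p (fun ω => E ω ∧ B ω) / Pe G.p E ≤ 0 :=
        div_nonpos_of_nonpos_of_nonneg hc hE0.le
      linarith
    refine ⟨fun ω => E ω ∧ B ω, fun ω h => h.1, h6, ?_⟩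
    have h7 : cond G.p (fun ω => E ω ∧ B ω) True =
        cond (cond G.p E True) (fun ω => E ω ∧ B ω) True :=
      (Piece.cond_cond (fun ω h => h.1) hE0.ne').symm
    have h8 : cond (cond G.p E True) (fun ω => E ω ∧ B ω) True =
        cond (cond G.p E True) B True := by
      have h9 : ∀ ω, cond G.p E True ω ≠ 0 → E ω := by
        intro ω hω
        unfold Pool.Agent.H49.Ent.cond at hω
        by_contra hc
        exact hω (if_neg (fun h => hc (of_eq_true h)))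
      rw [← cond_supp (cond G.p E True) B, ← cond_supp (cond G.p E True) (fun ω => E ω ∧ B ω)]
      congr 1
      funext ω
      exact propext ⟨fun h => ⟨h.1.2, h.2⟩, fun h => ⟨⟨h9 ω h.2, h.1⟩, h.2⟩⟩
    rw [h7, h8]
    exact h1)
  rw [cond_univ hp] at hex
  refine le_trans ?_ hex
  have h1 : (1 - δ) * (b * J) = b * J - δ * b * J := by ring
  have h2 : δ * b * J ≤ ε * J := mul_le_mul_of_nonneg_right hδb hJr
  rw [h1]
  linarith

end Pool.GEN
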