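import Pool.Agent.H34.GEN.Numx
import Pool.Agent.H39.GEN.LabN
import Pool.Agent.H39.GEN.MicW
import Pool.Agent.H56.ALL.Chain

/-!
# The step of the induction, inside one class

`tgs k`: the labels of the coordinate `k` over any list of other coordinates, with any sides and
any gradients (`Pool.LBN.Tch`). They have thresholds in a subclass of every class.
`LocN n Φ`: for every class as in the exactness theorem (`Pool.GEN.ClX`), with any slack, the
threshold `P` of the labels of the last coordinate and the rate `r` of the last coordinate have the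
property `Φ`. The exactness theorem in all smaller dimensions is available. In a proof one may pass
to a subclass, for instance in order to have the thresholds of other systems of labels.
`Mic`, `Sta`, `Jmp`: the three local statements.
`DiaN n`: if the slack is small, the threshold of the last coordinate is at most `s (n - 1) + h` at
some window of the class.
`F1N n`: the rate of the last coordinate of a counterexample.
`leaf_rows`, `leaf_one`: the step of the induction.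
-/

set_option autoImplicit false

namespace Pool.ONE

open Set Pool.KA Pool.GEN Pool.STR Pool.LEV Pool.ALL
open Pool.LBT (LSys ThrOf Slo Tri)
open Pool.LBN (Tch)
open Pool.Agent.H49.Ent Pool.Agent.H32.Dense Pool.STK Pool.KSAT Pool.K2S Pool.PB Pool.S6C

/-- **The labels of the coordinate `k`** over any list of other coordinates. -/
def tgs {n : ℕ} (k : Fin n) : LSys n where
  ι := Unit
  T _ K a w P := fun J F A => ∃ l : List (Fin n), l.Nodup ∧ k ∉ l ∧ Tch l k K a w P J F A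
  her := by
    rintro - K a w P J F A B hB ⟨l, h1, h2, h3⟩
    exact ⟨l, h1, h2, Tch.her l k K a w P J F A B hB h3⟩
  anti := by
    rintro - K a w P P' J F A hP ⟨l, h1, h2, h3⟩
    exact ⟨l, h1, h2, h3.anti hP⟩
  mono := by
    rintro - K K' a a' w w' P J F A hK ha hw _ _ ⟨l, h1, h2, h3⟩
    exact ⟨l, h1, h2, h3.mono hK ha hw⟩

instance {n : ℕ} (k : Fin n) : Countable (tgs k).ι := inferInstanceAs (Countable Unit)

variable {n : ℕ}

theorem slo_tgs (k : Fin n) (S : PCl n) : Slo (tgs k) S := by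
  intro i K
  refine ⟨K, fun w₀ hw₀ η hη => ⟨1, one_pos, 0, fun J _ F A _ a w v P Q _ _ _ _ hQ hT =>
    ⟨A, fun _ h => h, ?_, ?_⟩⟩⟩
  · have h1 : Real.exp (-(η * J)) ≤ 1 := by
      rw [Real.exp_le_one_iff]
      have : 0 ≤ η * (J : ℝ) := by positivity
      linarith
    calc _ ≤ 1 * Pe F.p A := mul_le_mul_of_nonneg_right h1 (Pe_nonneg F.isLaw A)
      _ = _ := one_mul _
  · have h1 : Q ≤ P + v := by
      have : (Q : ℝ) ≤ ((P + v : ℕ) : ℝ) := by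
        push_cast
        have : 0 ≤ η * (J : ℝ) := by positivity
        linarith
      exact_mod_cast this
    obtain ⟨l, h2, h3, h4⟩ := hT
    exact ⟨l, h2, h3, h4.slope.anti h1⟩

theorem tri_tgs (k : Fin n) (S : PCl n) : Tri (tgs k) S := by
  intro i
  refine ⟨0, fun η hη => ⟨1, one_pos, ?_⟩⟩
  obtain ⟨J₁, hJ₁⟩ := exists_nat_ge (1 / η)
  refine ⟨J₁, fun J hJ F A _ w P hw hP => ⟨A, fun _ h => h, ?_, ?_⟩⟩
  · have h1 : Real.exp (-(η * J)) ≤ 1 := by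
      rw [Real.exp_le_one_iff]
      have : 0 ≤ η * (J : ℝ) := by positivity
      linarith
    calc _ ≤ 1 * Pe F.p A := mul_le_mul_of_nonneg_right h1 (Pe_nonneg F.isLaw A)
      _ = _ := one_mul _
  · have hJ' : (J₁ : ℝ) ≤ J := by exact_mod_cast hJ
    have e1 : 1 / η ≤ J := hJ₁.trans hJ'
    rw [div_le_iff₀ hη] at e1
    have e2 : P + 1 ≤ w := by
      have : ((P + 1 : ℕ) : ℝ) ≤ w := by
        push_cast
        linarith
      exact_mod_cast this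
    exact ⟨[], List.nodup_nil, List.not_mem_nil, Tch.trivial e2 hw le_rfl A⟩

/-- **The thresholds of the labels of one coordinate.** -/
theorem hasThr_tgs (k : Fin n) : HasThr (tgs k) := fun S hS =>
  Pool.LBT.thr (tgs k) S hS (slo_tgs k S) (tri_tgs k S)

/-- The last coordinate. -/
def lst {n : ℕ} (hn : 2 ≤ n) : Fin n := ⟨n - 1, by omega⟩

/-- **A local statement** about the threshold and the rate of the last coordinate of one class. -/
def LocN (n : ℕ) (Φ : (ℝ → ℝ → ℝ) → (ℝ → ℝ) → Prop) : Prop :=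
  ∀ hn : 2 ≤ n, (∀ k, 1 ≤ k → k < n → FZX k) →
    ∀ (al : ℝ) (g₀ : ℝ → ℝ) (s : Fin n → ℝ) (d : ℕ → ℝ),
    0 < al → (∀ ε : ℝ, 0 < ε → 0 < g₀ ε) → NumX s d →
    ∀ (e : ℝ) (K₀ : ℕ) (N : ℚ → ℚ → ℝ) (S : PCl n), 0 < e → ClX s d al g₀ e K₀ N S →
    ∀ (P : ℝ → ℝ → ℝ) (r : ℝ → ℝ), ThrOf (tgs (lst hn)) S (fun _ => P) →
      RateOf S (lst hn) r → Φ P r

/-- **The micro statement**. -/
def Mic (n : ℕ) : Prop := LocN n MicW

/-- **The static statement**. -/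
def Sta (n : ℕ) : Prop := LocN n StaU

/-- **The statement on the jumps**. -/
def Jmp (n : ℕ) : Prop := LocN n JmpN

/-- **The threshold at a small window.** -/
def DiaN (n : ℕ) : Prop :=
  ∀ hn : 2 ≤ n, (∀ k, 1 ≤ k → k < n → FZX k) →
    ∀ (al : ℝ) (g₀ : ℝ → ℝ) (s : Fin n → ℝ) (d : ℕ → ℝ),
    0 < al → (∀ ε : ℝ, 0 < ε → 0 < g₀ ε) → NumX s d → ∀ h : ℝ, 0 < h →
    ∃ e : ℝ, 0 < e ∧ ∀ (K₀ : ℕ) (N : ℚ → ℚ → ℝ) (S : PCl n), ClX s d al g₀ e K₀ N S →
    ∀ P : ℝ → ℝ → ℝ, ThrOf (tgs (lst hn)) S (fun _ => P) →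
      ∃ w : ℝ, 0 < w ∧ w ≤ 1 ∧ P w w ≤ s (lst hn) + h

/-- **The rate of the last coordinate of a counterexample.** -/
def F1N (n : ℕ) : Prop :=
  ∀ hn : 2 ≤ n, (∀ k, 1 ≤ k → k < n → FZX k) →
    ∀ (al : ℝ) (g₀ : ℝ → ℝ) (s : Fin n → ℝ) (d : ℕ → ℝ),
    0 < al → (∀ ε : ℝ, 0 < ε → 0 < g₀ ε) → NumX s d → ∀ ρ h : ℝ, 0 < ρ → 0 < h →
    ∃ e : ℝ, 0 < e ∧ ∀ S : PCl n, BadX s d al g₀ ρ e S → ∀ r : ℝ → ℝ, RateOf S (lst hn) r →
      r 1 ≤ 1 - s (lst hn) - ρ + h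

/-- Consequences of local statements. -/
theorem LocN.mono {Φ Ψ : (ℝ → ℝ → ℝ) → (ℝ → ℝ) → Prop} (h : LocN n Φ)
    (hΦ : ∀ P r, Law P → (∀ a w, 0 ≤ w → w ≤ a → a ≤ 1 → a ≤ P a w ∧ P a w ≤ 1) →
      LipschitzWith 1 r → Monotone r → r 0 = 0 → Φ P r → Ψ P r) : LocN n Ψ := by
  intro hn hZ al g₀ s d h1 h2 h3 e K₀ N S h4 h5 P r h6 h7
  exact hΦ P r (h6.law ()) (fun a w h0 h1 h2 => ⟨h6.low () a w h0 h1 h2, h6.up () a w h0 h1 h2⟩)
    h7.lip h7.mono h7.zero (h hn hZ al g₀ s d h1 h2 h3 e K₀ N S h4 h5 P r h6 h7)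

theorem LocN.and {Φ Ψ : (ℝ → ℝ → ℝ) → (ℝ → ℝ) → Prop} (h : LocN n Φ) (h' : LocN n Ψ) :
    LocN n fun P r => Φ P r ∧ Ψ P r := by
  intro hn hZ al g₀ s d h1 h2 h3 e K₀ N S h4 h5 P r h6 h7
  exact ⟨h hn hZ al g₀ s d h1 h2 h3 e K₀ N S h4 h5 P r h6 h7,
    h' hn hZ al g₀ s d h1 h2 h3 e K₀ N S h4 h5 P r h6 h7⟩

/-- **The step of the induction**, if the rows above the thresholds of the last coordinate are
full. -/
theorem leaf_rows (hR : LocN n fun P r => ∀ w : ℝ, 0 < w → w ≤ 1 →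
      1 - P w w ≤ r 1 - r (P w w)) (hD : DiaN n) (hF : F1N n) (hn : 2 ≤ n) : LeafX n := by
  intro hZ ρ al hρ hal g₀ hg₀ s d hsd
  obtain ⟨e₁, he₁, hD⟩ := hD hn hZ al g₀ s d hal hg₀ hsd (ρ / 4) (by linarith)
  obtain ⟨e₂, he₂, hF⟩ := hF hn hZ al g₀ s d hal hg₀ hsd ρ (ρ / 4) hρ (by linarith)
  refine ⟨min e₁ e₂, lt_min he₁ he₂, ?_⟩
  intro K₀ N hN S hS hmem hbtr hact hbad
  have hCl : ClX s d al g₀ (min e₁ e₂) K₀ N S := ⟨hN, hS, hmem, hbtr, hact⟩
  obtain ⟨S', P, r, h1, h2, h3, h4⟩ := numx (hasThr_tgs (lst hn)) hCl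
  have hB : BadX s d al g₀ ρ e₂ S' :=
    ⟨⟨K₀, N, h1.slack (min_le_right _ _)⟩, Bas.sub h2 hbad⟩
  obtain ⟨w, hw, hw1, h5⟩ := hD K₀ N S' (h1.slack (min_le_left _ _)) (P ()) h3
  have h6 := hF S' hB (r (lst hn)) (h4 (lst hn))
  have h7 := hR hn hZ al g₀ s d hal hg₀ hsd (min e₁ e₂) K₀ N S' (lt_min he₁ he₂) h1 (P ())
    (r (lst hn)) h3 (h4 (lst hn)) w hw hw1
  have h8 : 0 ≤ P () w w := hw.le.trans (h3.low () w w hw.le le_rfl hw1)
  have h9 : 0 ≤ r (lst hn) (P () w w) := by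
    have a1 := (h4 (lst hn)).mono h8
    rw [(h4 (lst hn)).zero] at a1
    exact a1
  linarith

/-- **The step of the induction**, from the three local statements. -/
theorem leaf_one (hM : Mic n) (hS : Sta n) (hJ : Jmp n) (hD : DiaN n) (hF : F1N n)
    (hn : 2 ≤ n) : LeafX n := by
  refine leaf_rows (LocN.mono ((LocN.and hM hS).and hJ) ?_) hD hF hn
  rintro P r h1 h2 - h3 - ⟨⟨h4, h5⟩, h6⟩ w hw hw1
  have h7 := h2 w w hw.le le_rfl hw1
  exact rowsW h1 hw hw1 (hw.le.trans h7.1) h7.2 (h3.monotoneOn _) h6 h4 h5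

/-- **`KP m`** from the local statements. -/
theorem kp_one {m : ℕ} (hm : 1 ≤ m) (hM : ∀ n, 2 ≤ n → n ≤ m → Mic n)
    (hS : ∀ n, 2 ≤ n → n ≤ m → Sta n) (hJ : ∀ n, 2 ≤ n → n ≤ m → Jmp n)
    (hD : ∀ n, 2 ≤ n → n ≤ m → DiaN n) (hF : ∀ n, 2 ≤ n → n ≤ m → F1N n) : KP m :=
  kp_upto hm fun n h1 h2 =>
    leaf_one (hM n h1 h2) (hS n h1 h2) (hJ n h1 h2) (hD n h1 h2) (hF n h1 h2) h1

end Pool.ONE
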