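import Pool.Agent.H1.GEN.LeafG

/-!
# Bad properties in a family with side information: the general principle

`zcl_gen`: let `R i J a` be properties of events which depend on the support only and which can be
glued over the sections of the side information. If no nonempty class of families with the property
`Good` avoids all of them (on all large events), then every family with side information with the
property `Good` has one of them, on a large event.

Gluing: planks (`glu_plu`), lower bounds for conditional entropies (`glu_lower`), upper bounds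
(`glu_upper`), labels (`PLab.glu`, `GLab.glu`), unions.
-/

set_option autoImplicit false

namespace Pool.GEN

open Finset Real MvPolynomial
open Pool.Agent.H49.Ent Pool.Agent.H32.Dense Pool.STK Pool.KA Pool.KSAT Pool.K2S Pool.PB Pool.S6C
open Pool.ZCL

variable {n J : ℕ}

/-- The property can be glued over the sections of the side information, for events of positive
probability. -/
def GluP {n J : ℕ} (R : ∀ F : Fam n J, (F.Ω → Prop) → Prop) : Prop :=
  ∀ (G : Fam n J) (κ : Type) (c : G.Ω → κ) (B : G.Ω → Prop), Sel G c B → 0 < Pe G.p B →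
    (∀ ω, 0 < G.p ω → B ω → ∀ hl : IsLaw (cond G.p c (c ω)),
      R (G.res c (c ω) hl) (fun ω' => B ω' ∧ c ω' = c ω)) →
    R G (fun ω => B ω ∧ G.p ω ≠ 0)

theorem Glu.pos {R : ∀ F : Fam n J, (F.Ω → Prop) → Prop} (h : Glu R) : GluP R :=
  fun G κ c B hS _ hR => h G κ c B hS hR

/-- The property depends on the support of the event only. -/
def Inv0 {n J : ℕ} (R : ∀ F : Fam n J, (F.Ω → Prop) → Prop) : Prop :=
  ∀ (F : Fam n J) (A : F.Ω → Prop), R F A → R F (fun ω => A ω ∧ F.p ω ≠ 0)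

theorem inv0_of_hered {R : ∀ F : Fam n J, (F.Ω → Prop) → Prop} (h : ∀ F, Hered (R F)) :
    Inv0 R := fun F A hR => h F A _ (fun _ hω => hω.1) hR

/-- **Bad properties in a family with side information.** -/
theorem zcl_gen {ι : ℕ → ℕ → Type} [∀ i J, Fintype (ι i J)]
    {R : ∀ (i J : ℕ), ι i J → ∀ F : Fam n J, (F.Ω → Prop) → Prop}
    (Good : ∀ J : ℕ, Fam n J → Prop)
    (hcard : ∀ (i : ℕ) (e : ℝ), 0 < e → ∃ J₀ : ℕ, ∀ J ≥ J₀,
      (Fintype.card (ι i J) : ℝ) ≤ Real.exp (e * J))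
    (hinv : ∀ (i J : ℕ) (a : ι i J), Inv0 (R i J a))
    (hgl : ∀ (i J : ℕ) (a : ι i J), GluP (R i J a))
    (hGood : ∀ (J : ℕ) (G : Fam n J), Good J G → ∀ (κ : Type) (k : G.Ω → κ) (v : κ)
      (h : IsLaw (cond G.p k v)), (∀ ω ω', k ω = k ω' → G.Z ω = G.Z ω') → Good J (G.res k v h))
    (hL : ∀ S : FCl n, S.toP.Ne → (∀ (τ : ℝ) (J : ℕ) (F : Fam n J), S.T τ J F → Good J F) →
      (∀ i : ℕ, ∃ κ : ℝ, 0 < κ ∧ Clg S (fun J F A => ∀ B : F.Ω → Prop,
        Real.exp (-(κ * J)) * Pe F.p A ≤ Pe F.p B → ¬ ∃ a : ι i J, R i J a F B)) → False) :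
    ∀ B₀ : ℝ, 0 < B₀ → ∀ ψ : ℕ → ℝ, (∀ i, 0 < ψ i) →
    ∃ η : ℝ, 0 < η ∧ ∃ N J₁ : ℕ, ∀ J ≥ J₁, ∀ G : Fam n J, G.Tm (η * J) →
    (∀ z, 0 < law G.p G.Z z → H (Pool.Agent.H49.Ent.cond G.p G.Z z) G.l ≤ B₀ * J) → Good J G →
    ∃ i ≤ N, ∃ B : G.Ω → Prop, Real.exp (-(3 * ψ i * J)) ≤ Pe G.p B ∧
      ∃ a : ι i J, R i J a G B := by
  classical
  intro B₀ hB₀ ψ hψ
  obtain ⟨Bad, hBd⟩ : ∃ Bad : ℕ → Stat n, Bad = fun i J F B => ∃ a : ι i J, R i J a F B :=
    ⟨_, rfl⟩
  have hBd' : ∀ (i J : ℕ) (F : Fam n J) (B : F.Ω → Prop),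
      Bad i J F B ↔ ∃ a : ι i J, R i J a F B := fun i J F B => by rw [hBd]
  have hNe : ¬ (zc n Good Bad ψ).toP.Ne := by
    intro hNe
    refine hL _ hNe (fun τ J F h => h.2.2.2.1) fun i => ⟨ψ i / 2, half_pos (hψ i),
      Clg.mono (J₂ := 0) (zc_bad hψ i) fun J _ F A h B hPB => ?_⟩
    have h1 := h B hPB
    rwa [hBd'] at h1
  obtain ⟨η, hη, N, J₁, hcore⟩ := zcl_core (Good := Good) (Bad := Bad) hψ
    (fun i J F A h => by
      rw [hBd'] at h ⊢
      obtain ⟨a, ha⟩ := h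
      exact ⟨a, hinv i J a F A ha⟩) (clg_of_not_ne hNe) hB₀ one_pos
  have key : ∀ i, ∃ J₀ : ℕ, ∀ J ≥ J₀, (Fintype.card (ι i J) : ℝ) ≤ Real.exp (ψ i * J) :=
    fun i => hcard i (ψ i) (hψ i)
  choose J₂ hJ₂ using key
  refine ⟨η, hη, N, max J₁ (∑ i ∈ range (N + 1), J₂ i), fun J hJ G hTm hl hGd => ?_⟩
  have hJ1 : J₁ ≤ J := (le_max_left _ _).trans hJ
  have hp := G.isLaw
  by_contra hcon
  obtain ⟨κ, k, B, -, hPB, hsec⟩ := hcore J hJ1 G hTm hl
    (fun κ k v h hk => hGood J G hGd κ k v h hk) (by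
    intro i hi κ k B hSel hPB hbad
    have hB0 : 0 < Pe G.p B := lt_of_lt_of_le (Real.exp_pos _) hPB
    obtain ⟨a, B', hB', hP, hsec⟩ := sec_pigeon (ι := ι i J) hp k B hB0
      (fun a v E => ∀ hl : IsLaw (cond G.p k v), R i J a (G.res k v hl) E) (by
        intro ω hω hBω
        have h1 := hbad ω hω hBω (isLaw_sec hp k hω)
        rw [hBd'] at h1
        obtain ⟨a, ha⟩ := h1
        exact ⟨a, fun hl => ha⟩)
    have hB0' : 0 < Pe G.p B' := by
      by_contra h1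
      push Not at h1
      have h2 : ((Fintype.card (ι i J) : ℕ) : ℝ) * Pe G.p B' ≤ 0 :=
        mul_nonpos_of_nonneg_of_nonpos (Nat.cast_nonneg _) h1
      linarith
    have hR := hgl i J a G κ k B' (hSel.sub hB') hB0' fun ω hω hBω hl => hsec ω hω hBω hl
    refine hcon ⟨i, hi, _, ?_, a, hR⟩
    rw [Pe_supp]
    have hJi : J₂ i ≤ J := (Finset.single_le_sum (f := J₂) (fun _ _ => Nat.zero_le _)
      (Finset.mem_range.2 (by omega))).trans ((le_max_right _ _).trans hJ)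
    have h3 := hJ₂ i J hJi
    have h4 : Real.exp (-(2 * ψ i * J)) ≤ Real.exp (ψ i * J) * Pe G.p B' :=
      hPB.trans (hP.trans (mul_le_mul_of_nonneg_right h3 (Pe_nonneg hp B')))
    have h5 : Real.exp (-(3 * ψ i * J)) =
        Real.exp (-(ψ i * J)) * Real.exp (-(2 * ψ i * J)) := by
      rw [← Real.exp_add]
      congr 1
      ring
    rw [h5]
    calc _ ≤ Real.exp (-(ψ i * J)) * (Real.exp (ψ i * J) * Pe G.p B') :=
          mul_le_mul_of_nonneg_left h4 (Real.exp_pos _).le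
      _ = Pe G.p B' := by
          rw [← mul_assoc, ← Real.exp_add]
          have : -(ψ i * (J : ℝ)) + ψ i * J = 0 := by ring
          rw [this, Real.exp_zero, one_mul])
  obtain ⟨ω, h1, h2⟩ := exists_pos (lt_of_lt_of_le (Real.exp_pos _) hPB)
  exact hsec ω h1 h2 (isLaw_sec hp k h1)

/-! ### Gluing -/

/-- Planks can be glued. -/
theorem glu_plu (j : ℕ) (ρ : ℝ) :
    Glu (fun F : Fam n J => PlU j ρ (Fam.pt F) F.d) :=
  fun _ _ _ _ hS h => plu_glue hS h

/-- Disjunctions over a fixed choice of the index are handled by `zcl_gen`; two properties with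
the same index can be joined. -/
theorem GluP.and {R R' : ∀ F : Fam n J, (F.Ω → Prop) → Prop} (h : GluP R) (h' : GluP R') :
    GluP (fun F A => R F A ∧ R' F A) := fun G κ c B hS hB hR =>
  ⟨h G κ c B hS hB fun ω h1 h2 hl => (hR ω h1 h2 hl).1,
    h' G κ c B hS hB fun ω h1 h2 hl => (hR ω h1 h2 hl).2⟩

theorem Inv0.and {R R' : ∀ F : Fam n J, (F.Ω → Prop) → Prop} (h : Inv0 R) (h' : Inv0 R') :
    Inv0 (fun F A => R F A ∧ R' F A) := fun F A hR => ⟨h F A hR.1, h' F A hR.2⟩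

/-- A condition which does not depend on the family. -/
theorem glu_const {Q : Prop} {R : ∀ F : Fam n J, (F.Ω → Prop) → Prop} (h : GluP R) :
    GluP (fun F A => Q ∧ R F A) := by
  classical
  intro G κ c B hS hB hR
  obtain ⟨ω₀, h1, h2⟩ := exists_pos hB
  exact ⟨(hR ω₀ h1 h2 (isLaw_sec G.isLaw c h1)).1,
    h G κ c B hS hB fun ω h3 h4 hl => (hR ω h3 h4 hl).2⟩

theorem inv0_const {Q : Prop} {R : ∀ F : Fam n J, (F.Ω → Prop) → Prop} (h : Inv0 R) :
    Inv0 (fun F A => Q ∧ R F A) := fun F A hR => ⟨hR.1, h F A hR.2⟩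

/-- **Upper bounds for conditional entropies, glued.** -/
theorem ch_glue_le {Ω S T V : Type} [Fintype Ω] {p : Ω → ℝ} (hp : IsLaw p) (X : Ω → S) (W : Ω → T)
    (c : Ω → V) (B : Ω → Prop) {b : ℝ} (hB : 0 < Pe p B)
    (hc : ∀ ω ω', 0 < p ω → 0 < p ω' → B ω → B ω' → W ω = W ω' → c ω = c ω')
    (h : ∀ ω, 0 < p ω → B ω →
      CH (cond (cond p c (c ω)) (fun ω' => B ω' ∧ c ω' = c ω) True) X W ≤ b) :
    CH (cond p B True) X W ≤ b := by
  classical
  have h0 := hp.nonneg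
  have hlaw := isLaw_cond hp hB
  have hB' : law p B True ≠ 0 := by
    have : Pe p B = law p B True := rfl
    rw [← this]
    exact hB.ne'
  have e1 : CH (cond p B True) X W = CH (cond p B True) X (fun ω => (W ω, c ω)) := by
    refine CH_congr hlaw.nonneg ?_ ?_ ?_ ?_
    · intro ω ω' _ _ h3
      exact (Prod.ext_iff.1 h3).1
    · intro ω ω' _ _ h3
      exact (Prod.ext_iff.1 h3).1
    · intro ω ω' h1 h2 h3
      have h4 := (cond_pos_iff h0 B True ω).1 h1
      have h5 := (cond_pos_iff h0 B True ω').1 h2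
      exact Prod.ext h3 (hc ω ω' h4.1 h5.1 (of_eq_true h4.2) (of_eq_true h5.2) h3)
    · intro ω ω' _ _ h3
      exact (Prod.ext_iff.1 h3).1
  rw [e1, ← Ex_CH hlaw.nonneg X W c]
  have e2 : b = ∑ ω, cond p B True ω * b := by
    rw [← Finset.sum_mul, hlaw.sum_one, one_mul]
  rw [e2]
  unfold Ex
  refine Finset.sum_le_sum fun ω _ => ?_
  rcases (hlaw.nonneg ω).eq_or_lt with h1 | h1
  · rw [← h1, zero_mul, zero_mul]
  · have h4 := (cond_pos_iff h0 B True ω).1 h1
    have h5 := h ω h4.1 (of_eq_true h4.2)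
    rw [cond_part c B (law_pos h0 c h4.1).ne' hB'] at h5
    exact mul_le_mul_of_nonneg_left h5 h1.le

/-- The tail bound fails: this can be glued. -/
theorem glu_tail (k P : ℕ) (b : ℝ) :
    GluP (fun (F : Fam n J) A => b < CH (Pool.Agent.H49.Ent.cond F.p A True) (F.X k)
      (fun ω => (F.X P ω, F.W ω))) := by
  intro G κ c B hS hB h
  dsimp only at h ⊢
  rw [cond_supp]
  refine ch_glue G.isLaw _ _ c B hB ?_ fun ω hω hBω => h ω hω hBω (isLaw_sec G.isLaw c hω)
  intro ω ω' _ _ h5 h6 h7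
  exact hS.2 ω ω' h5 h6 (Prod.ext_iff.1 (Prod.ext_iff.1 h7).2).2

theorem inv0_tail (k P : ℕ) (b : ℝ) :
    Inv0 (fun (F : Fam n J) A => b < CH (Pool.Agent.H49.Ent.cond F.p A True) (F.X k)
      (fun ω => (F.X P ω, F.W ω))) := by
  intro F A h
  rw [cond_supp]
  exact h

/-- The fans are not active between two depths: this can be glued. -/
theorem glu_act (g g' : ℕ) (b : ℝ) :
    GluP (fun (F : Fam n J) A => CH (Pool.Agent.H49.Ent.cond F.p A True) (F.D g')
      (fun ω => (Fam.pt F ω, F.D g ω)) ≤ b) := by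
  intro G κ c B hS hB h
  dsimp only at h ⊢
  rw [cond_supp]
  refine ch_glue_le G.isLaw _ _ c B hB ?_ fun ω hω hBω => h ω hω hBω (isLaw_sec G.isLaw c hω)
  intro ω ω' _ _ h5 h6 h7
  exact hS.2 ω ω' h5 h6 (Prod.ext_iff.1 (Prod.ext_iff.1 (Prod.ext_iff.1 h7).1).2).2

theorem inv0_act (g g' : ℕ) (b : ℝ) :
    Inv0 (fun (F : Fam n J) A => CH (Pool.Agent.H49.Ent.cond F.p A True) (F.D g')
      (fun ω => (Fam.pt F ω, F.D g ω)) ≤ b) := by
  intro F A h
  rw [cond_supp]
  exact h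

end Pool.GEN
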